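import Mathlib
import Pool.Agent.N758.MT.C

/-!
# MP_e54452_nt: the period map and the relations in several variables

Let `G` be a `ℚ`-algebra `H` without zero divisors with elements `mot(k)` for the admissible indices `k`, `mot() = 1`,
that have the stuffle product, and with a ring homomorphism `per : H → ℂ` that maps `mot(k)` to `ζ(k)`; for example the
motivic periods with the motivic multiple zeta values.

A pattern in `k` variables is a list of letters `b + u_1 s_1 + ... + u_k s_k` with natural numbers `b`, `u_j`; at a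
tuple `s` of natural numbers it gives an index. Its constant part is the list of its first letters up to the first letter
that depends on the variables, such as `(5, 1)` for `ζ(5, 1, s_1, 3, s_1 + s_2)`. For almost all tuples means: for all
but `K N ^ (k - 1)` of the tuples in `[N, κ N] ^ k`, for relations with integer coefficients of absolute value at most
`C ^ N`, for all large `N`; here `K` depends on the patterns and on `κ`, but not on `C`.

Theorem.
(1) For almost all tuples each linear relation between the numbers `ζ(w_i(s))` is a combination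
`∑_u (∑_q d_u(q) Z(q)) Z(u)` of linear relations `∑_q d_u(q) ζ(q) = 0` between the initial segments `q` of the constant
parts, where the weights of `q` and `u` add up to that of a `w_i(s)`; this holds for all families `Z` with the stuffle
product, in all commutative rings.
(2) Let `Q` be a set of admissible indices with the empty index that contains the initial segments of its elements. Then
`per` is injective on the span of the `mot(q)`, `q ∈ Q`, if and only if for all patterns with constant parts in `Q`, in
any number of variables, and almost all tuples each linear relation between the numbers `ζ(w_i(s))` holds for the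
`mot(w_i(s))`. For the converse it is enough that for all patterns in one variable that contain the variable and all
bounds on the coefficients there is one such argument `s ≥ 2`.
(3) The same for the spans of the `mot(q)`, `q ∈ Q`, of one weight and homogeneous relations.
(4) The same for the algebra generated by the `mot(q)`, `q ∈ Q`, and polynomial relations of bounded degree.
(5) Let `mot(2, 1) = mot(3)`, `4 mot(3, 1) = mot(4)`, `4 mot(2, 2) = 3 mot(4)`, `mot(2, 1, 1) = mot(4)`, and let
`mot(2 m)` be a rational multiple of `mot(2) ^ m`, as for the motivic multiple zeta values. Then for almost all tuples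
the linear relations lift, if the constant parts have weight at most three; the homogeneous linear relations lift, if
the constant parts have weight at most four or are of the form `(2 m, ..., 2 m)`; and the polynomial relations of bounded
degree lift, if the constant parts are of the form `(2 m, ..., 2 m)`.

Proof: (1) is the elimination of constants in `Pool/Agent/X90/DK` (starting library) for `H = ℝ`, which uses the
subspace theorem through `Pool/Agent/Y760/ZF`. (2) and (3) follow; conversely a relation between the `mot(q)` is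
multiplied by `mot(s)`. For (4) `Pool/Agent/X90/DC/Gen2` replaces (1). (5) uses the transcendence of `π`, the linear
independence of `1`, `ζ(2)`, `ζ(3)` (starting library) and Newton's identities.
-/

set_option autoImplicit false

namespace Pool.Agent.Results.MP_e54452_nt.AlmostAllTuples

/-- `trunc [s_1, ..., s_r] m` is the sum of `∏ n_i ^ (-s_i)` over `m > n_1 > ... > n_r ≥ 1` -/
noncomputable def trunc : List ℕ → ℕ → ℝ
  | [], _ => 1
  | s :: l, m => ∑ j ∈ Finset.Ico 1 m, trunc l j / (j : ℝ) ^ s

/-- the multiple zeta value `ζ(s_1, ..., s_r)`, the sum of `∏ n_i ^ (-s_i)` over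
`n_1 > ... > n_r ≥ 1`; `ζ() = 1` -/
noncomputable def mzv : List ℕ → ℝ
  | [] => 1
  | s :: l => ∑' m : ℕ, trunc l (m + 1) / ((m + 1 : ℕ) : ℝ) ^ s

/-- admissible indices: the empty index and `(s_1, ..., s_r)` with `s_1 ≥ 2` and all `s_i ≥ 1` -/
def Admissible : List ℕ → Prop
  | [] => True
  | s :: l => 2 ≤ s ∧ ∀ t ∈ l, 1 ≤ t

/-- the terms of the stuffle product -/
def stuffles : List ℕ → List ℕ → List (List ℕ)
  | [], v => [v]
  | x :: u, [] => [x :: u]
  | x :: u, y :: v =>
    (stuffles u (y :: v)).map (x :: ·) ++ (stuffles (x :: u) v).map (y :: ·) ++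
      (stuffles u v).map ((x + y) :: ·)
termination_by k l => k.length + l.length

/-- `Z() = 1`, and the elements `Z(k)` of the ring `A`, for the admissible indices `k`, have the stuffle product -/
def HasStuffle {A : Type} [CommRing A] (Z : List ℕ → A) : Prop :=
  Z [] = 1 ∧ ∀ u v, Admissible u → Admissible v → Z u * Z v = ((stuffles u v).map Z).sum

/-- a `ℚ`-algebra without zero divisors, elements for the indices with the stuffle product, and a
period map; the motivic multiple zeta values are the main example -/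
structure MotivicValues where
  /-- the algebra -/
  H : Type
  [ring : CommRing H]
  [dom : IsDomain H]
  [alg : Algebra ℚ H]
  /-- the elements -/
  mot : List ℕ → H
  stuffle : HasStuffle mot
  /-- the period map -/
  per : H →+* ℂ
  per_mot : ∀ k : List ℕ, Admissible k → per (mot k) = (mzv k : ℂ)

attribute [instance] MotivicValues.ring MotivicValues.dom MotivicValues.alg

/-- the letter `(b, u)` stands for `b + ∑ u_j s_j` -/
abbrev Letter (k : ℕ) : Type := ℕ × (Fin k → ℕ)

/-- the index given by a pattern at the tuple `s` -/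
def index {k : ℕ} (s : Fin k → ℕ) (w : List (Letter k)) : List ℕ :=
  w.map fun u => u.1 + ∑ j, u.2 j * s j

/-- constant letters are positive, and the first letter is at least two if it is constant -/
def AdmissiblePattern {k : ℕ} (w : List (Letter k)) : Prop :=
  (∀ u ∈ w.head?, u.2 ≠ 0 ∨ 2 ≤ u.1) ∧ ∀ u ∈ w, u.2 ≠ 0 ∨ 1 ≤ u.1

open Classical in
/-- the constant letters in front of the first letter which is not constant -/
def constantPart {k : ℕ} : List (Letter k) → List ℕ
  | [] => []
  | u :: w => if u.2 = 0 then u.1 :: constantPart w else []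

/-- some letter is not constant -/
def HasVariable {k : ℕ} (w : List (Letter k)) : Prop := ∃ u ∈ w, u.2 ≠ 0

/-- the indices given by the patterns at a tuple have the same weight -/
def SameWeight {k r : ℕ} (w : Fin r → List (Letter k)) : Prop :=
  ∀ i j (s : Fin k → ℕ), (index s (w i)).sum = (index s (w j)).sum

/-- for all `κ` there is `K` such that for all `C` and all sufficiently large `N` the property `P (C ^ N) s` holds for
all but at most `K N ^ (k - 1)` of the tuples `s ∈ [N, κ N] ^ k` -/
def AlmostAll (k : ℕ) (P : ℝ → (Fin k → ℕ) → Prop) : Prop :=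
  ∀ κ : ℕ, ∃ K : ℕ, ∀ C : ℝ, ∃ N₀ : ℕ, ∀ N : ℕ, N₀ ≤ N →
    {s : Fin k → ℕ | (∀ j, N ≤ s j ∧ s j ≤ κ * N) ∧ ¬ P (C ^ N) s}.ncard ≤ K * N ^ (k - 1)

/-- the combination `∑ c_i Z(w_i(s))` is `∑_u (∑_q d_u(q) Z(q)) Z(u)`, for all families `Z` with the stuffle product in
all commutative rings, with finitely many indices `u` and relations `∑_q d_u(q) ζ(q) = 0` with integer coefficients
between initial segments `q` of the constant parts of the patterns; the weights of `q` and `u` add up to that of a
`w_i(s)` -/
def Splits {k r : ℕ} (w : Fin r → List (Letter k)) (s : Fin k → ℕ) (c : Fin r → ℤ) : Prop :=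
  ∃ (U : Finset (List ℕ)) (d : List ℕ → (List ℕ →₀ ℤ)),
    (∀ u ∈ U, (∀ q ∈ (d u).support, ∃ i, q <+: constantPart (w i) ∧ q.sum + u.sum = (index s (w i)).sum) ∧
      (d u).sum (fun q a => (a : ℝ) * mzv q) = 0) ∧
    ∀ (A : Type) [CommRing A] (Z : List ℕ → A), HasStuffle Z →
      ∑ i, (c i : A) * Z (index s (w i)) = ∑ u ∈ U, (d u).sum (fun q a => (a : A) * Z q) * Z u

/-- each linear relation between the numbers `ζ(w_i(s))` with integer coefficients of absolute value at most `B` holds
for the elements `mot(w_i(s))` -/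
def Lifts (G : MotivicValues) {k r : ℕ} (w : Fin r → List (Letter k)) (B : ℝ) (s : Fin k → ℕ) : Prop :=
  ∀ c : Fin r → ℤ, (∀ i, |(c i : ℝ)| ≤ B) → ∑ i, (c i : ℝ) * mzv (index s (w i)) = 0 →
    ∑ i, (c i : G.H) * G.mot (index s (w i)) = 0

/-- each polynomial relation of degree at most `D` between the numbers `ζ(w_i(s))` with integer coefficients of absolute
value at most `B` holds for the elements `mot(w_i(s))` -/
def PolyLifts (G : MotivicValues) {k r : ℕ} (w : Fin r → List (Letter k)) (D : ℕ) (B : ℝ) (s : Fin k → ℕ) : Prop :=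
  ∀ P : MvPolynomial (Fin r) ℤ, P.totalDegree ≤ D → (∀ m, |((P.coeff m : ℤ) : ℝ)| ≤ B) →
    MvPolynomial.aeval (fun i => mzv (index s (w i))) P = 0 →
    MvPolynomial.aeval (fun i => G.mot (index s (w i))) P = 0

/-- admissible indices, among them the empty index, with their initial segments -/
def FrontSet (Q : Set (List ℕ)) : Prop :=
  [] ∈ Q ∧ (∀ q ∈ Q, Admissible q) ∧ ∀ q ∈ Q, ∀ q', q' <+: q → q' ∈ Q

/-- `mot(2, 1) = mot(3)` and the relations of weight four -/
def SmallRelations (G : MotivicValues) : Prop :=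
  G.mot [2, 1] = G.mot [3] ∧ 4 * G.mot [3, 1] = G.mot [4] ∧ 4 * G.mot [2, 2] = 3 * G.mot [4] ∧
    G.mot [2, 1, 1] = G.mot [4]

/-- Euler's relations: `mot(2 m)` is a rational multiple of `mot(2) ^ m` -/
def EulerRelations (G : MotivicValues) : Prop :=
  ∀ m : ℕ, 1 ≤ m → ∃ a : ℚ, G.mot [2 * m] = a • G.mot [2] ^ m

open Finset
open Pool.Agent.X90.DB (Ad)
open Pool.Agent.N758.MT

theorem trunc_eq : ∀ l m, trunc l m = Pool.Agent.Y760.ZG.hr l m := by
  intro l
  induction l with
  | nil => intro m; rw [trunc, Pool.Agent.Y760.ZG.hr]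
  | cons s l ih =>
    intro m
    rw [trunc, Pool.Agent.Y760.ZG.hr]
    exact Finset.sum_congr rfl fun j _ => by rw [ih]

theorem mzv_eq : ∀ l, mzv l = Pool.Agent.Y760.ZG.mz l := by
  intro l
  cases l with
  | nil => rw [mzv, Pool.Agent.Y760.ZG.mz]
  | cons s l =>
    rw [mzv, Pool.Agent.Y760.ZG.mz]
    exact tsum_congr fun k => by rw [trunc_eq]

theorem mzv_fun : mzv = Pool.Agent.Y760.ZG.mz := funext mzv_eq

theorem stuffles_eq : ∀ u v, stuffles u v = Pool.Agent.Y760.ZF.sti u v := by
  intro u v
  induction u, v using Pool.Agent.Y760.ZF.sti.induct with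
  | case1 v => rw [stuffles, Pool.Agent.Y760.ZF.sti]
  | case2 x u => rw [stuffles, Pool.Agent.Y760.ZF.sti]
  | case3 x u y v ih1 ih2 ih3 => rw [stuffles, Pool.Agent.Y760.ZF.sti, ih1, ih2, ih3]

theorem adm_iff : ∀ u, Admissible u ↔ (u = [] ∨ Ad u) := by
  intro u
  cases u with
  | nil => exact ⟨fun _ => Or.inl rfl, fun _ => trivial⟩
  | cons a l => exact ⟨fun h => Or.inr h, fun h => h.resolve_left (List.cons_ne_nil _ _)⟩

theorem constantPart_eq {k : ℕ} : ∀ w : List (Letter k), constantPart w = Pool.Agent.X90.DC.fpx w := by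
  intro w
  induction w with
  | nil => rw [constantPart, Pool.Agent.X90.DC.fpx]
  | cons u w ih =>
    rw [constantPart, Pool.Agent.X90.DC.fpx, ih]

theorem HasStuffle.mul {A : Type} [CommRing A] {Z : List ℕ → A} (h : HasStuffle Z) (u v : List ℕ)
    (hu : Ad u) (hv : Ad v) : Z u * Z v = ((Pool.Agent.Y760.ZF.sti u v).map Z).sum := by
  rw [h.2 u v ((adm_iff u).2 (Or.inr hu)) ((adm_iff v).2 (Or.inr hv)), stuffles_eq]

/-- the same data in the library -/
@[reducible] def toMot (G : MotivicValues) : Pool.Agent.X90.DK.Mot where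
  H := G.H
  Z := G.mot
  nil := G.stuffle.1
  mul := G.stuffle.mul
  per := G.per
  per_Z w hw := by rw [G.per_mot w ((adm_iff w).2 (Or.inr hw)), mzv_eq]

theorem lifts_iff (G : MotivicValues) {k r : ℕ} (w : Fin r → List (Letter k)) :
    Lifts G w = Lft (toMot G) w := by
  funext B s
  rw [Lifts, mzv_fun]
  rfl

theorem polyLifts_iff (G : MotivicValues) {k r : ℕ} (w : Fin r → List (Letter k)) (D : ℕ) :
    PolyLifts G w D = LftP (toMot G) w D := by
  funext B s
  rw [PolyLifts, mzv_fun]
  rfl

theorem spl {k r : ℕ} {w : Fin r → List (Letter k)} {s : Fin k → ℕ} {c : Fin r → ℤ} (h : Spl w s c) :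
    Splits w s c := by
  obtain ⟨U, d, h1, h2⟩ := h
  refine ⟨U, d, fun u hu => ⟨fun q hq => ?_, ?_⟩, fun A _ Z hZ => h2 A Z hZ.1 hZ.mul⟩
  · obtain ⟨i, h3, h4⟩ := (h1 u hu).1 q hq
    exact ⟨i, by rw [constantPart_eq]; exact h3, h4⟩
  · rw [mzv_fun]
    exact (h1 u hu).2

/-- **The period map and the relations in several variables.** -/
theorem result (G : MotivicValues) :
    -- (1) almost all relations split into relations between initial segments of the constant parts
    (∀ (k r : ℕ) (w : Fin r → List (Letter k)), (∀ i, AdmissiblePattern (w i)) →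
      AlmostAll k fun B s => ∀ c : Fin r → ℤ, (∀ i, |(c i : ℝ)| ≤ B) →
        ∑ i, (c i : ℝ) * mzv (index s (w i)) = 0 → Splits w s c) ∧
    (∀ Q : Set (List ℕ), FrontSet Q →
      -- (2) linear relations
      List.TFAE [
        ∀ x ∈ Submodule.span ℚ (G.mot '' Q), G.per x = 0 → x = 0,
        ∀ (k r : ℕ) (w : Fin r → List (Letter k)),
          (∀ i, AdmissiblePattern (w i) ∧ constantPart (w i) ∈ Q) → AlmostAll k (Lifts G w),
        ∀ (r : ℕ) (w : Fin r → List (Letter 1)),
          (∀ i, AdmissiblePattern (w i) ∧ constantPart (w i) ∈ Q ∧ HasVariable (w i)) →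
          ∀ B : ℝ, ∃ s : Fin 1 → ℕ, 2 ≤ s 0 ∧ Lifts G w B s] ∧
      -- (3) homogeneous linear relations
      List.TFAE [
        ∀ n, ∀ x ∈ Submodule.span ℚ (G.mot '' {q ∈ Q | q.sum = n}), G.per x = 0 → x = 0,
        ∀ (k r : ℕ) (w : Fin r → List (Letter k)), SameWeight w →
          (∀ i, AdmissiblePattern (w i) ∧ constantPart (w i) ∈ Q) → AlmostAll k (Lifts G w),
        ∀ (r : ℕ) (w : Fin r → List (Letter 1)), SameWeight w →
          (∀ i, AdmissiblePattern (w i) ∧ constantPart (w i) ∈ Q ∧ HasVariable (w i)) →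
          ∀ B : ℝ, ∃ s : Fin 1 → ℕ, 2 ≤ s 0 ∧ Lifts G w B s] ∧
      -- (4) polynomial relations
      List.TFAE [
        ∀ x ∈ Algebra.adjoin ℚ (G.mot '' Q), G.per x = 0 → x = 0,
        ∀ (k r : ℕ) (w : Fin r → List (Letter k)),
          (∀ i, AdmissiblePattern (w i) ∧ constantPart (w i) ∈ Q) → ∀ D : ℕ, AlmostAll k (PolyLifts G w D),
        ∀ (r : ℕ) (w : Fin r → List (Letter 1)),
          (∀ i, AdmissiblePattern (w i) ∧ constantPart (w i) ∈ Q ∧ HasVariable (w i)) →
          ∀ (D : ℕ) (B : ℝ), ∃ s : Fin 1 → ℕ, 2 ≤ s 0 ∧ PolyLifts G w D B s]) ∧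
    -- (5) constant parts of small weight, and constant parts `(2 m, ..., 2 m)`
    (G.mot [2, 1] = G.mot [3] → ∀ (k r : ℕ) (w : Fin r → List (Letter k)),
      (∀ i, AdmissiblePattern (w i) ∧ (constantPart (w i)).sum ≤ 3) → AlmostAll k (Lifts G w)) ∧
    (SmallRelations G → EulerRelations G → ∀ (k r : ℕ) (w : Fin r → List (Letter k)), SameWeight w →
      (∀ i, AdmissiblePattern (w i) ∧ ((constantPart (w i)).sum ≤ 4 ∨
        ∃ n m : ℕ, 1 ≤ m ∧ constantPart (w i) = List.replicate n (2 * m))) → AlmostAll k (Lifts G w)) ∧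
    (EulerRelations G → ∀ (k r : ℕ) (w : Fin r → List (Letter k)),
      (∀ i, AdmissiblePattern (w i) ∧
        ∃ n m : ℕ, 1 ≤ m ∧ constantPart (w i) = List.replicate n (2 * m)) →
      ∀ D : ℕ, AlmostAll k (PolyLifts G w D)) := by
  refine ⟨fun k r w hw => ?_, fun Q hQ => ?_, fun h21 k r w hw => ?_, fun hS hE k r w hs hw => ?_,
    fun hE k r w hw D => ?_⟩
  · refine AA.mono (Q := fun B s => ∀ c : Fin r → ℤ, (∀ i, |(c i : ℝ)| ≤ B) →
        ∑ i, (c i : ℝ) * mzv (index s (w i)) = 0 → Splits w s c) (split w hw) ?_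
    intro B s _ h c hc hrel
    rw [mzv_fun] at hrel
    exact spl (h c hc hrel)
  · obtain ⟨h0, hA, hcl⟩ := hQ
    have hA' : ∀ q ∈ Q, q = [] ∨ Ad q := fun q hq => (adm_iff q).1 (hA q hq)
    simp only [lifts_iff, polyLifts_iff, constantPart_eq]
    refine ⟨?_, ?_, ?_⟩
    · tfae_have 1 → 2 := fun h k r w hw => lift (toMot G) Q hcl w hw h
      tfae_have 2 → 3 := fun h r w hw B =>
        AA.exists_one (h 1 r w fun i => ⟨(hw i).1, (hw i).2.1⟩) (fun _ _ _ hB h' => h'.mono hB) B 2
      tfae_have 3 → 1 := fun h => inj_of_lift (toMot G) Q Q hA' subset_rfl hcl fun r w hw B =>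
        h r w (fun i => ⟨(hw i).1, (hw i).2.1, (hw i).2.2.1⟩) B
      tfae_finish
    · tfae_have 1 → 2 := fun h k r w hs hw => lift_hom (toMot G) Q hcl w hw hs h
      tfae_have 2 → 3 := fun h r w hs hw B =>
        AA.exists_one (h 1 r w hs fun i => ⟨(hw i).1, (hw i).2.1⟩) (fun _ _ _ hB h' => h'.mono hB) B 2
      tfae_have 3 → 1 := fun h n => inj_of_lift (toMot G) Q {q ∈ Q | q.sum = n} hA' (fun q hq => hq.1) hcl
        fun r w hw B => h r w (fun i j s => by
          obtain ⟨q, hq, hqs⟩ := (hw i).2.2.2
          obtain ⟨q', hq', hqs'⟩ := (hw j).2.2.2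
          have e1 : (index s (w i)).sum = q.sum + s 0 := hqs s
          have e2 : (index s (w j)).sum = q'.sum + s 0 := hqs' s
          rw [e1, e2, hq.2, hq'.2]) (fun i => ⟨(hw i).1, (hw i).2.1, (hw i).2.2.1⟩) B
      tfae_finish
    · tfae_have 1 → 2 := fun h k r w hw D => liftP (toMot G) Q hcl w hw D h
      tfae_have 2 → 3 := fun h r w hw D B =>
        AA.exists_one (h 1 r w (fun i => ⟨(hw i).1, (hw i).2.1⟩) D) (fun _ _ _ hB h' => h'.mono hB) B 2
      tfae_have 3 → 1 := fun h => inj_of_liftP (toMot G) Q h0 hA' hcl fun r w hw D B => h r w hw D B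
      tfae_finish
  · rw [lifts_iff]
    refine lift (toMot G) (Wt 3) (wt_closed 3) w (fun i => ⟨(hw i).1, fpx_ad (hw i).1, ?_⟩)
      (inj_three (toMot G) h21)
    rw [← constantPart_eq]
    exact (hw i).2
  · rw [lifts_iff]
    refine lift_hom (toMot G) (Wt 4 ∪ Ev) ?_ w (fun i => ⟨(hw i).1, ?_⟩) hs (inj_hom (toMot G) hE hS)
    · rintro q (hq | hq) q' h'
      · exact Or.inl (wt_closed 4 q hq q' h')
      · exact Or.inr (ev_closed q hq q' h')
    · rw [← constantPart_eq]
      rcases (hw i).2 with h | h
      · refine Or.inl ⟨?_, h⟩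
        rw [constantPart_eq]
        exact fpx_ad (hw i).1
      · exact Or.inr h
  · rw [polyLifts_iff]
    refine liftP (toMot G) Ev ev_closed w (fun i => ⟨(hw i).1, ?_⟩) D (inj_ev (toMot G) hE)
    rw [← constantPart_eq]
    exact (hw i).2

end Pool.Agent.Results.MP_e54452_nt.AlmostAllTuples
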