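import Pool.Agent.N407.MZ.Ex
import Pool.Agent.Results.MP_e54452_nt.MotivicCount

/-!
# MP_e54452_nt: the period conjecture and the relations with a large argument near the values of multiplicative functions

Let `Z` be a `ℚ`-algebra `H` without zero divisors with elements `mot(k)` for the admissible indices `k`, `mot() = 1`, that
have the stuffle product, and with a ring homomorphism `per : H → ℂ` that maps `mot(k)` to `ζ(k)`; for example the motivic
periods with the motivic multiple zeta values. Fix `W` and consider the indices of weight at most `s + W` with an entry at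
least `s`. The starting theorem `MotivicCount` describes the relations of height at most `C ^ s` between the `mot(k)` and
between the `ζ(k)` for these `k`, for all but a bounded number of the `s` in `[N, κ N]`, `N` large. We show that this holds
for ALL `s` in long windows around the values of multiplicative functions.

Let `f` be a positive multiplicative function of at most polynomial growth such that `f p ≤ M p` for the large primes `p`,
with different values at different large primes; for example Euler's function or the sum of the divisors. Let `Φ` have steps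
bounded below by a positive constant and growth at most `v ^ d`, for example `Φ v = α v ^ d`, and let `0 ≤ κ < 1`. We write
`NearValues` for: for all `C > 1` and `U`, for all large `N`, for all `m ≤ N` but `N / (log N) ^ U`, for ALL `s` with
`|s - Φ (f m)| ≤ f(m) ^ κ`.

(1) For all `W` the dimensions of the spaces of the relations of height at most `C ^ s` between the `mot(k)` and between the
`ζ(k)` are given by the formulas of `MotivicCount`, `NearValues`.
(2) `per` is injective on the elements of weight at most `W` if and only if each relation of height at most `C ^ s` between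
the real numbers `ζ(k)` of weight at most `s + W` with an argument at least `s` is a consequence of relations of height at
most `C ^ s` in `H`, `NearValues`.
(3) `per` is injective on the algebra generated by the `mot(k)` if and only if this holds for all `W`.
(4) For `W = 3` this holds, if `mot(2, 1) = mot(3)`.

The values of `f` are in general taken with very large multiplicities, and the windows are long, so that this does not
follow from the number of the exceptional `s`.
-/

set_option autoImplicit false

namespace Pool.Agent.Results.MP_e54452_nt.MultiplicativeValues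

open Pool.Agent.N733.TG (LM Expanding lm_totient lm_sigma expanding_pow)
open Pool.Agent.Results.MP_e54452_nt.MotivicCount (mzv Admissible MotivicValues upTo numUpTo relationSpace AlmostAll
  mem_adjoin upTo_mono per_dim)

/-- for all `C > 1` and all `U`, for all large `N` and all `m ≤ N` but `N / (log N) ^ U`, the property `P C s` holds for ALL
natural numbers `s` with `|s - Φ (f m)| ≤ f(m) ^ κ` -/
def NearValues (f : ℕ → ℕ) (Φ : ℕ → ℝ) (κ : ℝ) (P : ℝ → ℕ → Prop) : Prop :=
  ∀ C : ℝ, 1 < C → ∀ U : ℕ, ∃ N₀ : ℕ, ∀ N : ℕ, N₀ ≤ N →
    ({m : ℕ | 1 ≤ m ∧ m ≤ N ∧ ¬ ∀ s : ℕ, |(s : ℝ) - Φ (f m)| ≤ (f m : ℝ) ^ κ → P C s}.ncard : ℝ) ≤ N / Real.log N ^ U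

lemma near_of {P : ℝ → ℕ → Prop} (h : AlmostAll P) {f : ℕ → ℕ} (hf : LM f) {Φ : ℕ → ℝ} {d : ℝ} (hΦ : Expanding Φ d) {κ : ℝ}
    (hκ : 0 ≤ κ) (hκ1 : κ < 1) : NearValues f Φ κ P := by
  intro C hC U
  obtain ⟨K, hK⟩ := h 2
  obtain ⟨N₁, hN₁⟩ := hK C hC
  have h1 := Pool.Agent.N407.MZ.near (Q := fun s => ¬ P C s) hN₁ hf hΦ hκ hκ1 U
  simpa only [not_not] using h1

/-- **The period conjecture and the relations with a large argument near the values of multiplicative functions.** Let `Z` be
a `ℚ`-algebra without zero divisors with elements `mot(k)` that have the stuffle product and a period map, for example the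
motivic multiple zeta values. Let `f` be multiplicative and positive, of at most polynomial growth, with `f p ≤ M p` at the
large primes, and injective there. Let `Φ` have steps `≥ a > 0` and growth at most `v ^ d`, and let `0 ≤ κ < 1`. (1) For all `W`,
`NearValues`: the relations of height at most `C ^ s` between the `mot(k)` of weight at most `s + W` with an entry at least `s`
span a space of dimension `∑_{j ≤ W} 2 ^ j (A_{W - j} - dim upTo mot (W - j))`, and the space spanned by the relations between
the numbers `ζ(k)` contains it and has the dimension `∑_{j ≤ W} 2 ^ j (A_{W - j} - dim upTo ζ (W - j))`. (2) For all `W`: the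
period map is injective on the elements of weight at most `W` if and only if the two spaces are equal, `NearValues`. (3) The
period map is injective on the algebra generated by the `mot(k)` if and only if this holds for all `W`. (4) If
`mot(2, 1) = mot(3)`, this holds for `W = 3`. Euler's function and the sum of the divisors are examples of such functions `f`,
and `α v ^ d` with `α > 0`, `d ≥ 1` is an example of `Φ`. -/
theorem result :
    (∀ (Z : MotivicValues) (f : ℕ → ℕ), LM f → ∀ (Φ : ℕ → ℝ) (d : ℝ), Expanding Φ d → ∀ κ : ℝ, 0 ≤ κ → κ < 1 →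
      (∀ W : ℕ, NearValues f Φ κ fun C s =>
        relationSpace Z.mot W s (C ^ s) ≤ relationSpace mzv W s (C ^ s) ∧
        Module.finrank ℚ (relationSpace Z.mot W s (C ^ s)) +
          ∑ j ∈ Finset.range (W + 1), 2 ^ j * Module.finrank ℚ (upTo Z.mot (W - j)) =
            ∑ j ∈ Finset.range (W + 1), 2 ^ j * numUpTo (W - j) ∧
        Module.finrank ℚ (relationSpace mzv W s (C ^ s)) +
          ∑ j ∈ Finset.range (W + 1), 2 ^ j * Module.finrank ℚ (upTo mzv (W - j)) =
            ∑ j ∈ Finset.range (W + 1), 2 ^ j * numUpTo (W - j)) ∧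
      (∀ W : ℕ, (∀ x ∈ upTo Z.mot W, Z.per x = 0 → x = 0) ↔
        NearValues f Φ κ fun C s => relationSpace Z.mot W s (C ^ s) = relationSpace mzv W s (C ^ s)) ∧
      ((∀ x ∈ Algebra.adjoin ℚ (Z.mot '' {p | Admissible p}), Z.per x = 0 → x = 0) ↔
        ∀ W : ℕ, NearValues f Φ κ fun C s => relationSpace Z.mot W s (C ^ s) = relationSpace mzv W s (C ^ s)) ∧
      (Z.mot [2, 1] = Z.mot [3] → NearValues f Φ κ fun C s =>
        relationSpace Z.mot 3 s (C ^ s) = relationSpace mzv 3 s (C ^ s))) ∧
    (LM Nat.totient ∧ LM (fun m => ∑ d ∈ m.divisors, d)) ∧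
    ∀ α d : ℝ, 0 < α → 1 ≤ d → Expanding (fun v => α * (v : ℝ) ^ d) d := by
  refine ⟨fun Z f hf Φ d hΦ κ hκ hκ1 => ?_, ⟨lm_totient, lm_sigma⟩, fun α d hα hd => expanding_pow hα hd⟩
  obtain ⟨r1, r2, r3, r4⟩ := MotivicCount.result Z
  have q2 : ∀ W : ℕ, (∀ x ∈ upTo Z.mot W, Z.per x = 0 → x = 0) ↔
      NearValues f Φ κ fun C s => relationSpace Z.mot W s (C ^ s) = relationSpace mzv W s (C ^ s) := by
    intro W
    refine ⟨fun h => near_of ((r2 W).1 h) hf hΦ hκ hκ1, fun h => ?_⟩
    obtain ⟨m, hm1, g1, g2, g3⟩ := Pool.Agent.N407.MZ.ex_pos hf hΦ (near_of (r1 W) hf hΦ hκ hκ1 2 one_lt_two 1)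
      (h 2 one_lt_two 1)
    obtain ⟨s, hs⟩ := Pool.Agent.N407.MZ.ex_window hκ (hf.pos m hm1) g3
    obtain ⟨-, e1, e2⟩ := g1 s hs
    have e3 := g2 s hs
    have h2 : ∑ j ∈ Finset.range (W + 1), 2 ^ j * Module.finrank ℚ (upTo mzv (W - j)) =
        ∑ j ∈ Finset.range (W + 1), 2 ^ j * Module.finrank ℚ (upTo Z.mot (W - j)) := by
      rw [e3] at e1
      omega
    have h3 := (Finset.sum_eq_sum_iff_of_le fun j _ => Nat.mul_le_mul_left (2 ^ j)
      (per_dim Z (W - j)).1).1 h2 0 (Finset.mem_range.2 (by omega))
    rw [pow_zero, one_mul, one_mul, Nat.sub_zero] at h3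
    exact (per_dim Z W).2.1 h3
  refine ⟨fun W => near_of (r1 W) hf hΦ hκ hκ1, q2, ?_, fun h21 => near_of (r4 h21) hf hΦ hκ hκ1⟩
  constructor
  · intro h W
    exact (q2 W).1 fun x hx => h x ((mem_adjoin Z x).2 ⟨W, hx⟩)
  · intro h x hx
    obtain ⟨W, hW⟩ := (mem_adjoin Z x).1 hx
    exact (q2 W).2 (h W) x hW

end Pool.Agent.Results.MP_e54452_nt.MultiplicativeValues
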