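import Mathlib
import Pool.Agent.H340R2.LW
import Pool.Agent.H387R3.ZF.Z

/-!
# MP_e54452_nt: zero blocks in the period matrices of mixed Tate motives over `ℤ`

**Setting.** `G^dR = U^dR ⋊ 𝔾_m`, and the graded Lie algebra of `U^dR` is free on `σ_3, σ_5, …`. The
torsor `Isom(ω_dR, ω_B)` is trivial over `ℚ` (`G^dR` is an extension of `𝔾_m` by a prounipotent
group). So, over a field `K ⊆ ℂ`, an object of `MT(ℤ) ⊗ K` is a finite-dimensional graded vector space
with operators `σ_n` (`Motive`), the ring `P` of motivic periods has the basis `t ^ e f_u`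
(`e ∈ ℤ`, `u` a word in the letters `3, 5, 7, …`), `[M, w, s] = ∑ s(pr_{-e} σ_u w) t ^ e f_u`, and
`per(t ^ e f_u) = (2πi) ^ e a_u` for certain numbers `a_u` with `a_∅ = 1`; one may normalise `σ_n`
and the isomorphism of fibre functors so that `a_n = ζ(n)` for the words with one letter. Nothing
is assumed on the other `a_u`.

A *zero block of defect at most `j`* in the period matrix of `M` is a pair of subspaces
`W ⊆ ω_dR(M)`, `S ⊆ ω_B(M)^∨` with `dim W + dim S ≥ dim M - j` and `per [M, w, s] = 0` for all
`w ∈ W`, `s ∈ S`. (There is none with `dim W + dim S > dim M`. For `j = 0` such blocks are the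
sub-objects of the de Rham-Betti realisation of `M`.) `BlockInjective K a N j` says: if the weights
of `M` lie in an interval of length `N`, then the motivic periods `[M, w, s]` of such a block vanish.

**Theorem.**
(1) This holds if and only if `per` is injective on the motivic periods of the motives of rank at
most `j + 2` (with weights in an interval of length `N`).
(2) `per` is injective on `P` if and only if this holds for all `N` and `j`.
(3) For `j = 0` it holds if and only if `(2πi) ^ n ∉ K` for `1 ≤ n ≤ N` and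
`ζ(n) ∉ K + K (2πi) ^ n` for odd `n`, `3 ≤ n ≤ N`. For `K = ℚ`: if and only if `ζ(n)` is irrational
for odd `n`, `3 ≤ n ≤ N`. For the field `K` of real algebraic numbers: if and only if these `ζ(n)`
are transcendental.
(4) For `K = ℚ` it holds for `N = 3` and all `j`, and for `N = 4` and `j ≤ 1`.

**Proof.** (1) Let `T = f ∘ per`, an operator on `ω_dR(M)`, for a general linear form
`f : ℂ → K`. It is injective, preserves the subobjects, and maps `W` into the annihilator of `S`.
Hence the defect (`dim M - dim W - dim S`) of a zero block does not increase when one passes to a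
subquotient `R / Q` with the induced block (`count`). Let `F_k` be the filtration by the degree. By
induction on `l - k` one shows `[M, w, s] = 0` for `w ∈ W ∩ F_k` and `s ∈ S` that vanishes on
`F_{l+1}`. Let `R` be the subobject of the `v ∈ F_{k+1} + K w` with `[M, v, s'] = 0` for all
`s' ∈ S` that vanish on `F_l`, and `Q` the largest subobject of `R` killed by `s`. By induction the
block induced on `R / Q` is spanned by `w` and `s`; so the rank of `R / Q` is at most `j + 2`.
(3) is a computation for motives of rank two, with the transcendence of `π`. (4) uses the linear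
independence of `1, ζ(2), ζ(3)` and of `1, ζ(3), ζ(4)` over `ℚ` (`Pool.Agent.LZ.Z3_linind`,
`Pool.Agent.ZF.Z3_linind`), which are theorems of the starting library.
-/

set_option autoImplicit false

open Complex Module

namespace Pool.Agent.Results.MP_e54452_nt.ZeroBlocks

/-- The odd integers `≥ 3`, the (negatives of the) degrees of the free generators `σ₃, σ₅, …` of the
graded Lie algebra of `U^dR`. -/
abbrev Letter := {n : ℕ // Odd n ∧ 3 ≤ n}

/-- A mixed Tate motive `M` over `ℤ` with coefficients in `K` (an object of `MT(ℤ) ⊗ K`), that is a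
representation of `G^dR = U^dR ⋊ 𝔾_m` on the `K`-vector space `V = ω_dR(M)`. -/
structure Motive (K V : Type) [Field K] [AddCommGroup V] [Module K V] where
  /-- the projection of `V` onto its part of degree `k`, the sum of copies of `ω_dR(ℚ(k))` -/
  pr : ℤ → V →ₗ[K] V
  pr_pr : ∀ (k l : ℤ) (v : V), pr k (pr l v) = if k = l then pr l v else 0
  sum_pr : ∃ D : Finset ℤ, ∀ v : V, ∑ k ∈ D, pr k v = v
  /-- the action of the generator `σ_n`, which maps degree `k` to degree `k + n` -/
  σ : Letter → V →ₗ[K] V
  raise : ∀ (n : Letter) (k : ℤ) (v : V), σ n (pr k v) = pr (k + ((n : ℕ) : ℤ)) (σ n v)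

variable {K V : Type} [Field K] [AddCommGroup V] [Module K V]

/-- The action of a word in the `σ_n`. -/
def Motive.word (M : Motive K V) : List Letter → V →ₗ[K] V
  | [] => LinearMap.id
  | n :: u => (M.σ n).comp (Motive.word M u)

/-- The motivic period `[M, w, s]`, for `w ∈ ω_dR(M)` and `s ∈ ω_B(M)^∨`.

The ring `P = O(Isom(ω_dR, ω_B)) ⊗ K` of motivic periods has the basis `t ^ e f_u` (`e` an integer,
`u` a word; `t` is the motivic `2πi`, and the `f_u` are the coordinates of `U^dR` dual to the words
in the `σ_n`); an element of `P` is given by its coefficients in this basis. -/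
def Motive.mper (M : Motive K V) (w : V) (s : Dual K V) : ℤ × List Letter → K :=
  fun p => s (M.pr (-p.1) (M.word p.2 w))

/-- The period map `per : P → ℂ`, the linear map with `t ^ e f_u ↦ (2πi) ^ e a_u`. -/
noncomputable def per (K : Type) [Field K] [Algebra K ℂ] (a : List Letter → ℂ)
    (x : ℤ × List Letter → K) : ℂ :=
  ∑ᶠ p : ℤ × List Letter, algebraMap K ℂ (x p) * ((2 * Real.pi * I) ^ p.1 * a p.2)

/-- The weights of `M` lie in an interval of length `N`: `M` is an iterated extension of copies of
`ℚ(b), …, ℚ(b + N)` for some `b`. -/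
def Motive.Width (M : Motive K V) (N : ℕ) : Prop :=
  ∀ k l : ℤ, M.pr k ≠ 0 → M.pr l ≠ 0 → l ≤ k + N

/-- `per` is injective on the motivic periods of the motives of rank at most `r` (whose weights lie
in an interval of length `N`). -/
def RankInjective (K : Type) [Field K] [Algebra K ℂ] (a : List Letter → ℂ) (N r : ℕ) : Prop :=
  ∀ (V : Type) [AddCommGroup V] [Module K V] [FiniteDimensional K V] (M : Motive K V),
    M.Width N → finrank K V ≤ r → ∀ (w : V) (s : Dual K V),
      per K a (M.mper w s) = 0 → M.mper w s = 0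

/-- `per` is injective on the zero blocks of defect at most `j`, for motives `M` of any rank (whose
weights lie in an interval of length `N`): if `W ⊆ ω_dR(M)` and `S ⊆ ω_B(M)^∨` are subspaces with
`dim W + dim S ≥ dim M - j` and `per [M, w, s] = 0` for all `w ∈ W` and `s ∈ S`, then
`[M, w, s] = 0` for all `w ∈ W` and `s ∈ S`. -/
def BlockInjective (K : Type) [Field K] [Algebra K ℂ] (a : List Letter → ℂ) (N j : ℕ) : Prop :=
  ∀ (V : Type) [AddCommGroup V] [Module K V] [FiniteDimensional K V] (M : Motive K V),
    M.Width N → ∀ (W : Submodule K V) (S : Submodule K (Dual K V)),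
      finrank K V ≤ finrank K W + finrank K S + j →
      (∀ w ∈ W, ∀ s ∈ S, per K a (M.mper w s) = 0) → ∀ w ∈ W, ∀ s ∈ S, M.mper w s = 0

/-- the number `ζ(n)` -/
noncomputable def zeta (n : ℕ) : ℝ := ∑' k : ℕ, 1 / ((k : ℝ) + 1) ^ n

/-- `(2πi) ^ n` is not in `K` for `1 ≤ n ≤ N`, and `ζ(n)` is not in `K + K (2πi) ^ n` for odd
`n` with `3 ≤ n ≤ N`. -/
def Independent (K : Type) [Field K] [Algebra K ℂ] (N : ℕ) : Prop :=
  (∀ n : ℕ, 1 ≤ n → n ≤ N → ∀ x : K, algebraMap K ℂ x ≠ (2 * Real.pi * I) ^ n) ∧
  (∀ n : Letter, (n : ℕ) ≤ N → ∀ x y : K,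
    algebraMap K ℂ x + algebraMap K ℂ y * (2 * Real.pi * I) ^ (n : ℕ) ≠ zeta n)

/-! ### words -/

/-- the total size of a word -/
def size (u : List Letter) : ℕ := (u.map Subtype.val).sum

@[simp] theorem size_nil : size [] = 0 := rfl

theorem size_cons (n : Letter) (u : List Letter) : size (n :: u) = (n : ℕ) + size u := by
  simp [size]

theorem size_pos {u : List Letter} (hu : u ≠ []) : 0 < size u := by
  obtain ⟨n, u', rfl⟩ := List.exists_cons_of_ne_nil hu
  rw [size_cons]
  have := n.2.2
  omega

theorem finite_size (N : ℕ) : {u : List Letter | size u ≤ N}.Finite := by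
  induction N using Nat.strong_induction_on with
  | _ N ih =>
    have hfin : {n : Letter | (n : ℕ) ≤ N}.Finite :=
      Set.Finite.of_finite_image (f := Subtype.val)
        ((Set.finite_Iic N).subset (by rintro _ ⟨n, hn, rfl⟩; exact hn))
        Subtype.val_injective.injOn
    refine Set.Finite.subset ((Set.finite_singleton ([] : List Letter)).union
      (hfin.biUnion (t := fun n => (n :: ·) '' {u : List Letter | size u ≤ N - n ∧
        0 < N}) fun n _ => ?_)) ?_
    · refine Set.Finite.image _ ?_
      rcases Nat.eq_zero_or_pos N with h | h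
      · refine Set.Finite.subset Set.finite_empty ?_
        rintro u ⟨_, h'⟩
        omega
      · refine (ih (N - n) ?_).subset fun u hu => hu.1
        have := n.2.2
        omega
    · intro u hu
      rcases u with _ | ⟨n, u⟩
      · left
        rfl
      · right
        have h1 : size (n :: u) ≤ N := hu
        rw [size_cons] at h1
        have := n.2.2
        refine Set.mem_biUnion (x := n) (show (n : ℕ) ≤ N by omega) ⟨u, ⟨?_, by omega⟩, rfl⟩
        omega

/-- the words of size at most `N` -/
noncomputable def B (N : ℕ) : Finset (List Letter) := (finite_size N).toFinset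

theorem mem_B {N : ℕ} {u : List Letter} : u ∈ B N ↔ size u ≤ N := by
  rw [B, Set.Finite.mem_toFinset]
  rfl

/-! ### filtration -/

theorem Motive.pr_word (M : Motive K V) (u : List Letter) (k : ℤ) (v : V) :
    M.pr k (M.word u v) = M.word u (M.pr (k - size u) v) := by
  induction u generalizing k with
  | nil => simp [Motive.word]
  | cons n u ih =>
    show M.pr k (M.σ n (M.word u v)) = M.σ n (M.word u (M.pr (k - size (n :: u)) v))
    have h1 : k - (size (n :: u) : ℤ) = (k - ((n : ℕ) : ℤ)) - size u := by
      rw [size_cons]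
      push_cast
      ring
    rw [h1, ← ih, M.raise, sub_add_cancel]

theorem Motive.word_append (M : Motive K V) (u : List Letter) (n : Letter) (v : V) :
    M.word (u ++ [n]) v = M.word u (M.σ n v) := by
  induction u with
  | nil => rfl
  | cons m u ih =>
    show M.σ m (M.word (u ++ [n]) v) = M.σ m (M.word u (M.σ n v))
    rw [ih]

theorem Motive.pr_self (M : Motive K V) (k : ℤ) (v : V) : M.pr k (M.pr k v) = M.pr k v := by
  rw [M.pr_pr, if_pos rfl]

theorem Motive.pr_ne (M : Motive K V) {k l : ℤ} (h : k ≠ l) (v : V) :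
    M.pr k (M.pr l v) = 0 := by
  rw [M.pr_pr, if_neg h]

/-- the subspace of the vectors with components in degrees `≥ k` only -/
def Motive.F (M : Motive K V) (k : ℤ) : Submodule K V where
  carrier := {v | ∀ i, i < k → M.pr i v = 0}
  add_mem' := by
    intro v w hv hw i hi
    rw [map_add, hv i hi, hw i hi, add_zero]
  zero_mem' := fun i _ => map_zero _
  smul_mem' := by
    intro c v hv i hi
    rw [map_smul, hv i hi, smul_zero]

theorem Motive.mem_F (M : Motive K V) {k : ℤ} {v : V} :
    v ∈ M.F k ↔ ∀ i, i < k → M.pr i v = 0 := Iff.rfl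

theorem Motive.F_anti (M : Motive K V) {k l : ℤ} (h : k ≤ l) : M.F l ≤ M.F k :=
  fun _ hv i hi => hv i (by omega)

theorem Motive.word_F (M : Motive K V) {k : ℤ} {v : V} (hv : v ∈ M.F k) (u : List Letter) :
    M.word u v ∈ M.F (k + size u) := by
  intro i hi
  rw [M.pr_word, hv _ (by omega), map_zero]

theorem Motive.pr_F (M : Motive K V) (k : ℤ) (v : V) : M.pr k v ∈ M.F k := by
  intro i hi
  exact M.pr_ne (by omega) v

theorem Motive.sub_pr_F (M : Motive K V) {k : ℤ} {v : V} (hv : v ∈ M.F k) :
    v - M.pr k v ∈ M.F (k + 1) := by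
  intro i hi
  rw [map_sub]
  rcases lt_or_eq_of_le (Int.lt_add_one_iff.1 hi) with h | h
  · rw [hv i h, M.pr_ne (by omega), sub_zero]
  · rw [h, M.pr_self, sub_self]

/-- subobjects -/
structure Motive.Stable (M : Motive K V) (X : Submodule K V) : Prop where
  pr : ∀ k, ∀ v ∈ X, M.pr k v ∈ X
  σ : ∀ n, ∀ v ∈ X, M.σ n v ∈ X

theorem Motive.Stable.word {M : Motive K V} {X : Submodule K V} (h : M.Stable X)
    (u : List Letter) : ∀ v ∈ X, M.word u v ∈ X := by
  induction u with
  | nil => exact fun v hv => hv
  | cons n u ih => exact fun v hv => h.σ n _ (ih v hv)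

theorem Motive.mper_pr (M : Motive K V) (w : V) (s : Dual K V) (i : ℤ)
    (h : M.mper w s = 0) : M.mper (M.pr i w) s = 0 := by
  funext p
  show s (M.pr (-p.1) (M.word p.2 (M.pr i w))) = 0
  rw [M.pr_word, M.pr_pr]
  split_ifs with h1
  · rw [← h1, ← M.pr_word]
    exact congrFun h p
  · rw [map_zero, map_zero]

theorem Motive.mper_σ (M : Motive K V) (w : V) (s : Dual K V) (n : Letter)
    (h : M.mper w s = 0) : M.mper (M.σ n w) s = 0 := by
  funext p
  show s (M.pr (-p.1) (M.word p.2 (M.σ n w))) = 0
  rw [← M.word_append]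
  exact congrFun h (p.1, p.2 ++ [n])

theorem Motive.mper_eval (M : Motive K V) {w : V} {s : Dual K V} (h : M.mper w s = 0) :
    s w = 0 := by
  obtain ⟨D, hD⟩ := M.sum_pr
  rw [← hD w, map_sum]
  refine Finset.sum_eq_zero fun k _ => ?_
  have := congrFun h (-k, [])
  simpa [Motive.mper, Motive.word] using this

theorem Motive.mper_add (M : Motive K V) (v w : V) (s : Dual K V) :
    M.mper (v + w) s = M.mper v s + M.mper w s := by
  funext p
  simp [Motive.mper]

theorem Motive.mper_smul (M : Motive K V) (c : K) (w : V) (s : Dual K V) :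
    M.mper (c • w) s = c • M.mper w s := by
  funext p
  simp [Motive.mper]

theorem Motive.mper_add_right (M : Motive K V) (w : V) (s t : Dual K V) :
    M.mper w (s + t) = M.mper w s + M.mper w t := by
  funext p
  simp [Motive.mper]

theorem Motive.mper_smul_right (M : Motive K V) (c : K) (w : V) (s : Dual K V) :
    M.mper w (c • s) = c • M.mper w s := by
  funext p
  simp [Motive.mper]

/-! ### subquotients -/

section Sub

variable (M : Motive K V) {Q R : Submodule K V} (hQ : M.Stable Q) (hR : M.Stable R)

/-- the map induced on `R / Q` -/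
def ind (φ : V →ₗ[K] V) (hφR : ∀ v ∈ R, φ v ∈ R) (hφQ : ∀ v ∈ Q, φ v ∈ Q) :
    (R ⧸ Q.comap R.subtype) →ₗ[K] (R ⧸ Q.comap R.subtype) :=
  Submodule.mapQ _ _ (φ.restrict hφR) fun _ hv => hφQ _ hv

theorem ind_mk (φ : V →ₗ[K] V) (hφR : ∀ v ∈ R, φ v ∈ R) (hφQ : ∀ v ∈ Q, φ v ∈ Q) (v : R) :
    ind φ hφR hφQ (Submodule.Quotient.mk v) =
      Submodule.Quotient.mk (⟨φ v, hφR v v.2⟩ : R) := rfl

/-- the subquotient `R / Q` -/
def subq : Motive K (R ⧸ Q.comap R.subtype) where
  pr k := ind (M.pr k) (hR.pr k) (hQ.pr k)
  pr_pr k l v := by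
    obtain ⟨v, rfl⟩ := Submodule.Quotient.mk_surjective _ v
    rw [ind_mk, ind_mk]
    split_ifs with h
    · congr 1
      apply Subtype.ext
      show M.pr k (M.pr l v) = M.pr l v
      rw [M.pr_pr, if_pos h]
    · rw [Submodule.Quotient.mk_eq_zero]
      have h1 : (⟨M.pr k (M.pr l v), hR.pr k _ (hR.pr l _ v.2)⟩ : R) = 0 := by
        apply Subtype.ext
        exact M.pr_ne h v
      show (⟨M.pr k (M.pr l v), hR.pr k _ (hR.pr l _ v.2)⟩ : R) ∈ _
      rw [h1]
      exact Submodule.zero_mem _
  sum_pr := by
    obtain ⟨D, hD⟩ := M.sum_pr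
    refine ⟨D, fun v => ?_⟩
    obtain ⟨v, rfl⟩ := Submodule.Quotient.mk_surjective _ v
    simp only [ind_mk]
    have h1 : (Submodule.Quotient.mk v : R ⧸ Q.comap R.subtype) =
        Submodule.mkQ _ (∑ k ∈ D, (⟨M.pr k v, hR.pr k v v.2⟩ : R)) := by
      rw [Submodule.mkQ_apply]
      congr 1
      apply Subtype.ext
      rw [AddSubmonoidClass.coe_finsetSum]
      exact (hD v).symm
    rw [h1, map_sum]
    rfl
  σ n := ind (M.σ n) (hR.σ n) (hQ.σ n)
  raise n k v := by
    obtain ⟨v, rfl⟩ := Submodule.Quotient.mk_surjective _ v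
    rw [ind_mk, ind_mk, ind_mk, ind_mk]
    congr 1
    apply Subtype.ext
    exact M.raise n k v

theorem subq_width {N : ℕ} (h : M.Width N) : (subq M hQ hR).Width N := by
  intro k l hk hl
  refine h k l (fun h0 => hk ?_) (fun h0 => hl ?_)
  · apply LinearMap.ext
    intro v
    obtain ⟨v, rfl⟩ := Submodule.Quotient.mk_surjective _ v
    show (Submodule.Quotient.mk (⟨M.pr k v, _⟩ : R) : R ⧸ Q.comap R.subtype) = 0
    rw [Submodule.Quotient.mk_eq_zero]
    have h1 : (⟨M.pr k v, hR.pr k v v.2⟩ : R) = 0 := by
      apply Subtype.ext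
      show M.pr k v = 0
      rw [h0]
      rfl
    rw [h1]
    exact Submodule.zero_mem _
  · apply LinearMap.ext
    intro v
    obtain ⟨v, rfl⟩ := Submodule.Quotient.mk_surjective _ v
    show (Submodule.Quotient.mk (⟨M.pr l v, _⟩ : R) : R ⧸ Q.comap R.subtype) = 0
    rw [Submodule.Quotient.mk_eq_zero]
    have h1 : (⟨M.pr l v, hR.pr l v v.2⟩ : R) = 0 := by
      apply Subtype.ext
      show M.pr l v = 0
      rw [h0]
      rfl
    rw [h1]
    exact Submodule.zero_mem _

theorem subq_word (u : List Letter) (v : R) :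
    (subq M hQ hR).word u (Submodule.Quotient.mk v) =
      Submodule.Quotient.mk (⟨M.word u v, hR.word u v v.2⟩ : R) := by
  induction u with
  | nil => rfl
  | cons n u ih =>
    show (subq M hQ hR).σ n ((subq M hQ hR).word u (Submodule.Quotient.mk v)) = _
    rw [ih]
    rfl

theorem subq_mper (w : R) (s : Dual K V) (hs : ∀ v ∈ Q, s v = 0) :
    (subq M hQ hR).mper (Submodule.Quotient.mk w)
      ((Q.comap R.subtype).liftQ (s.comp R.subtype) (fun _ hv => hs _ hv)) = M.mper w s := by
  funext p
  show ((Q.comap R.subtype).liftQ (s.comp R.subtype) _) ((subq M hQ hR).pr (-p.1)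
    ((subq M hQ hR).word p.2 (Submodule.Quotient.mk w))) = s (M.pr (-p.1) (M.word p.2 w))
  rw [subq_word]
  rfl

end Sub

/-! ### counting dimensions -/

theorem finrank_le_add_one [FiniteDimensional K V] {X Y : Submodule K V} (x : V)
    (h : ∀ v ∈ X, ∃ c : K, v - c • x ∈ Y) : finrank K X ≤ finrank K Y + 1 := by
  have h1 : X ≤ Y ⊔ Submodule.span K {x} := by
    intro v hv
    obtain ⟨c, hc⟩ := h v hv
    rw [Submodule.mem_sup]
    exact ⟨v - c • x, hc, c • x, Submodule.smul_mem _ _ (Submodule.mem_span_singleton_self x),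
      sub_add_cancel _ _⟩
  have h2 := Submodule.finrank_mono h1
  have h3 := Submodule.finrank_add_le_finrank_add_finrank Y (Submodule.span K {x})
  have h4 : finrank K (Submodule.span K {x}) ≤ 1 := by
    have := finrank_span_le_card (R := K) ({x} : Set V)
    simpa using this
  omega

theorem count [FiniteDimensional K V] (T : V →ₗ[K] V) (hT : Function.Injective T)
    {Q R : Submodule K V} (hTQ : ∀ v ∈ Q, T v ∈ Q) (hTR : ∀ v ∈ R, T v ∈ R)
    (W : Submodule K V) (S : Submodule K (Dual K V)) (hTW : ∀ w ∈ W, ∀ s ∈ S, s (T w) = 0) :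
    finrank K R + finrank K W + finrank K S + finrank K (W ⊓ Q : Submodule K V) +
        finrank K (S ⊓ R.dualAnnihilator : Submodule K (Dual K V)) ≤
      finrank K V + finrank K Q + finrank K (W ⊓ R : Submodule K V) +
        finrank K (S ⊓ Q.dualAnnihilator : Submodule K (Dual K V)) := by
  have hS := Subspace.finrank_add_finrank_dualCoannihilator_eq S
  -- (1)
  have h1 : finrank K (W ⊓ Q : Submodule K V) ≤
      finrank K (S.dualCoannihilator ⊓ Q : Submodule K V) := by
    rw [(Submodule.equivMapOfInjective T hT (W ⊓ Q)).finrank_eq]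
    refine Submodule.finrank_mono ?_
    rintro _ ⟨w, ⟨hw, hwQ⟩, rfl⟩
    refine ⟨?_, hTQ w hwQ⟩
    rw [SetLike.mem_coe, Submodule.mem_dualCoannihilator]
    exact fun s hs => hTW w hw s hs
  have h2 : finrank K (S.dualCoannihilator ⊔ Q : Submodule K V) +
      finrank K (S ⊓ Q.dualAnnihilator : Submodule K (Dual K V)) = finrank K V := by
    have h3 := Subspace.finrank_add_finrank_dualAnnihilator_eq (S.dualCoannihilator ⊔ Q)
    rw [Submodule.dualAnnihilator_sup_eq, Subspace.dualCoannihilator_dualAnnihilator_eq] at h3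
    exact h3
  have h3 := Submodule.finrank_sup_add_finrank_inf_eq S.dualCoannihilator Q
  -- (2)
  have h4 : finrank K (W ⊔ R : Submodule K V) ≤
      finrank K (S ⊓ R.dualAnnihilator : Submodule K (Dual K V)).dualCoannihilator := by
    rw [(Submodule.equivMapOfInjective T hT (W ⊔ R)).finrank_eq]
    refine Submodule.finrank_mono ?_
    rintro _ ⟨x, hx, rfl⟩
    obtain ⟨w, hw, r, hr, rfl⟩ := Submodule.mem_sup.1 hx
    rw [Submodule.mem_dualCoannihilator]
    rintro s ⟨hs, hsR⟩
    rw [map_add, map_add, hTW w hw s hs, (Submodule.mem_dualAnnihilator s).1 hsR _ (hTR r hr),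
      add_zero]
  have h5 := Subspace.finrank_add_finrank_dualCoannihilator_eq
    (S ⊓ R.dualAnnihilator : Submodule K (Dual K V))
  have h6 := Submodule.finrank_sup_add_finrank_inf_eq W R
  omega

theorem finrank_subq [FiniteDimensional K V] {Q R : Submodule K V} (hQR : Q ≤ R) :
    finrank K (R ⧸ Q.comap R.subtype) + finrank K Q = finrank K R := by
  have h1 := Submodule.finrank_quotient_add_finrank (Q.comap R.subtype)
  have h2 : finrank K (Q.comap R.subtype) = finrank K Q :=
    (Submodule.comapSubtypeEquivOfLe hQR).finrank_eq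
  omega

/-! ### the operator attached to a linear form -/

variable [Algebra K ℂ]

/-- the numbers `(2πi) ^ e a_u` -/
noncomputable def cc (a : List Letter → ℂ) (e : ℤ) (u : List Letter) : ℂ :=
  (2 * Real.pi * I) ^ e * a u

theorem two_pi_I_ne : (2 * Real.pi * I : ℂ) ≠ 0 := Complex.two_pi_I_ne_zero

omit [Algebra K ℂ] in
theorem pr_word_large {N : ℕ} (M : Motive K V) (hN : M.Width N) (u : List Letter)
    (hu : u ∉ B N) (k : ℤ) (v : V) : M.pr k (M.word u v) = 0 := by
  rw [mem_B, not_le] at hu
  rw [M.pr_word]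
  by_cases h1 : M.pr (k - size u) = 0
  · rw [h1, LinearMap.zero_apply, map_zero]
  · by_cases h2 : M.pr k = 0
    · rw [← M.pr_word, h2, LinearMap.zero_apply]
    · exact absurd (hN _ _ h1 h2) (by omega)

omit [Algebra K ℂ] in
theorem pr_out {M : Motive K V} {D : Finset ℤ} (hD : ∀ v : V, ∑ k ∈ D, M.pr k v = v) {k : ℤ}
    (hk : k ∉ D) (v : V) : M.pr k v = 0 := by
  have h1 := congrArg (M.pr k) (hD v)
  rw [map_sum, Finset.sum_eq_zero] at h1
  · exact h1.symm
  · intro l hl
    exact M.pr_ne (fun h => hk (by rw [h]; exact hl)) v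

theorem per_eq {N : ℕ} (M : Motive K V) (hN : M.Width N) {D : Finset ℤ}
    (hD : ∀ v : V, ∑ k ∈ D, M.pr k v = v) (a : List Letter → ℂ) (w : V) (s : Dual K V) :
    per K a (M.mper w s) = ∑ i ∈ D, ∑ u ∈ B N, s (M.pr i (M.word u w)) • cc a (-i) u := by
  classical
  have h1 : per K a (M.mper w s) =
      ∑ p ∈ (D.image fun i => -i) ×ˢ B N, (M.mper w s p) • cc a p.1 p.2 := by
    rw [per]
    have h2 : ∀ p : ℤ × List Letter, algebraMap K ℂ (M.mper w s p) *
        ((2 * Real.pi * I) ^ p.1 * a p.2) = (M.mper w s p) • cc a p.1 p.2 := fun p => by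
      rw [Algebra.smul_def]
      rfl
    simp only [h2]
    refine finsum_eq_sum_of_support_subset _ fun p hp => ?_
    rw [Function.mem_support] at hp
    rw [Finset.mem_coe, Finset.mem_product]
    constructor
    · by_contra hne
      apply hp
      have h3 : M.mper w s p = 0 := by
        show s (M.pr (-p.1) (M.word p.2 w)) = 0
        rw [pr_out hD (fun h => hne (Finset.mem_image.2 ⟨-p.1, h, neg_neg _⟩)), map_zero]
      rw [h3, zero_smul]
    · by_contra hne
      apply hp
      have h3 : M.mper w s p = 0 := by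
        show s (M.pr (-p.1) (M.word p.2 w)) = 0
        rw [pr_word_large M hN _ hne, map_zero]
      rw [h3, zero_smul]
  rw [h1, Finset.sum_product, Finset.sum_image (fun x _ y _ h => neg_injective h)]
  refine Finset.sum_congr rfl fun i _ => Finset.sum_congr rfl fun u _ => ?_
  show s (M.pr (- -i) (M.word u w)) • _ = _
  rw [neg_neg]

theorem exists_operator [FiniteDimensional K V] {N : ℕ} (M : Motive K V) (hN : M.Width N)
    (a : List Letter → ℂ) (h0 : a [] = 1) (W : Submodule K V) (S : Submodule K (Dual K V))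
    (hper : ∀ w ∈ W, ∀ s ∈ S, per K a (M.mper w s) = 0) :
    ∃ T : V →ₗ[K] V, Function.Injective T ∧ (∀ w ∈ W, ∀ s ∈ S, s (T w) = 0) ∧
      ∀ X : Submodule K V, M.Stable X → ∀ v ∈ X, T v ∈ X := by
  classical
  obtain ⟨D, hD⟩ := M.sum_pr
  have : CharZero K := (algebraMap K ℂ).charZero
  have : Infinite K := Infinite.of_injective (Nat.cast : ℕ → K) Nat.cast_injective
  obtain ⟨f, hf⟩ := Module.exists_dual_forall_apply_ne_zero (K := K)
    (fun i : D => cc a (-(i : ℤ)) []) (fun i => by
      rw [cc, h0, mul_one]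
      exact zpow_ne_zero _ two_pi_I_ne)
  let T : V →ₗ[K] V := ∑ i ∈ D, ∑ u ∈ B N, f (cc a (-i) u) • (M.pr i).comp (M.word u)
  have hT : ∀ v, T v = ∑ i ∈ D, ∑ u ∈ B N, f (cc a (-i) u) • M.pr i (M.word u v) := by
    intro v
    simp only [T, LinearMap.sum_apply, LinearMap.smul_apply, LinearMap.comp_apply]
  refine ⟨T, ?_, ?_, ?_⟩
  · rw [injective_iff_map_eq_zero]
    intro v hv
    by_contra hv0
    have hne : (D.filter fun i => M.pr i v ≠ 0).Nonempty := by
      rw [Finset.nonempty_iff_ne_empty]
      intro he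
      apply hv0
      rw [← hD v]
      refine Finset.sum_eq_zero fun k hk => ?_
      by_contra hk0
      have : k ∈ D.filter fun i => M.pr i v ≠ 0 := Finset.mem_filter.2 ⟨hk, hk0⟩
      rw [he] at this
      exact absurd this (Finset.notMem_empty k)
    obtain ⟨k, hk, hmin⟩ := Finset.exists_min_image _ id hne
    rw [Finset.mem_filter] at hk
    have hlow : v ∈ M.F k := by
      intro i hi
      by_contra hi0
      have hiD : i ∈ D := by
        by_contra h
        exact hi0 (pr_out hD h v)
      have := hmin i (Finset.mem_filter.2 ⟨hiD, hi0⟩)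
      simp only [id] at this
      omega
    have h1 : M.pr k (T v) = f (cc a (-k) []) • M.pr k v := by
      rw [hT, map_sum, Finset.sum_eq_single k]
      · rw [map_sum, Finset.sum_eq_single []]
        · rw [map_smul, M.pr_self]
          rfl
        · intro u _ hu
          rw [map_smul, M.pr_self, M.word_F hlow u k, smul_zero]
          have := size_pos hu
          omega
        · intro h
          exact absurd (mem_B.2 (by simp)) h
      · intro i _ hi
        rw [map_sum]
        refine Finset.sum_eq_zero fun u _ => ?_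
        rw [map_smul, M.pr_ne (Ne.symm hi), smul_zero]
      · intro h
        exact absurd hk.1 h
    rw [hv, map_zero] at h1
    have h2 := hf ⟨k, hk.1⟩
    exact (smul_ne_zero h2 hk.2) h1.symm
  · intro w hw s hs
    have h1 := congrArg f (hper w hw s hs)
    rw [map_zero, per_eq M hN hD, map_sum] at h1
    rw [hT, map_sum, ← h1]
    refine Finset.sum_congr rfl fun i _ => ?_
    rw [map_sum, map_sum]
    refine Finset.sum_congr rfl fun u _ => ?_
    rw [map_smul, map_smul, smul_eq_mul, smul_eq_mul, mul_comm]
  · intro X hX v hv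
    rw [hT]
    exact X.sum_mem fun i _ => X.sum_mem fun u _ => X.smul_mem _ (hX.pr i _ (hX.word u v hv))

/-! ### rank reduction -/

theorem blocks {N j : ℕ} (a : List Letter → ℂ) (h0 : a [] = 1)
    (hr : RankInjective K a N (j + 2)) : BlockInjective K a N j := by
  classical
  intro V _ _ _ M hM W S hdim hper
  obtain ⟨T, hTinj, hTW, hTX⟩ := exists_operator M hM a h0 W S hper
  have C : ∀ g : ℕ, ∀ k : ℤ, ∀ w ∈ W, w ∈ M.F k → ∀ s ∈ S, (∀ v ∈ M.F (k + g), s v = 0) →
      M.mper w s = 0 := by
    intro g
    induction g with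
    | zero =>
      intro k w _ hwk s _ hsk
      funext p
      show s (M.pr (-p.1) (M.word p.2 w)) = 0
      rw [Nat.cast_zero, add_zero] at hsk
      have h1 : M.pr (-p.1) (M.word p.2 w) ∈ M.F k := by
        by_cases h : -p.1 < k
        · rw [M.F_anti (by omega : k ≤ k + size p.2) (M.word_F hwk p.2) _ h]
          exact Submodule.zero_mem _
        · exact M.F_anti (not_lt.1 h) (M.pr_F _ _)
      exact hsk _ h1
    | succ g ih =>
      intro k w hw hwk s hs hsk
      rcases Nat.eq_zero_or_pos g with hg | hg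
      · -- a single degree
        subst hg
        have hsk' : ∀ v ∈ M.F (k + 1), s v = 0 := by simpa using hsk
        have h1 : ∀ p : ℤ × List Letter, p ≠ (-k, []) → M.mper w s p = 0 := by
          intro p hp
          show s (M.pr (-p.1) (M.word p.2 w)) = 0
          by_cases hu : p.2 = []
          · have hk : -p.1 ≠ k := by
              intro h
              apply hp
              rw [← h, ← hu, neg_neg]
            rw [hu]
            show s (M.pr (-p.1) w) = 0
            rcases lt_or_gt_of_ne hk with h | h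
            · rw [hwk _ h, map_zero]
            · exact hsk' _ (M.F_anti (by omega) (M.pr_F _ _))
          · have h2 : M.word p.2 w ∈ M.F (k + 1) := by
              have := size_pos hu
              exact M.F_anti (by omega) (M.word_F hwk p.2)
            by_cases h : -p.1 < k + 1
            · rw [h2 _ h, map_zero]
            · exact hsk' _ (M.F_anti (not_lt.1 h) (M.pr_F _ _))
        have h2 := hper w hw s hs
        rw [per, finsum_eq_single _ (-k, []) (fun p hp => by rw [h1 p hp, map_zero, zero_mul]),
          h0, mul_one] at h2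
        have h3 : M.mper w s (-k, []) = 0 := by
          have h4 := (mul_eq_zero.1 h2).resolve_right (zpow_ne_zero _ two_pi_I_ne)
          rwa [map_eq_zero] at h4
        funext p
        by_cases hp : p = (-k, [])
        · rw [hp]
          exact h3
        · exact h1 p hp
      · -- the general step
        set l : ℤ := k + g with hl
        have hlk : k + 1 ≤ l := by omega
        have hsl : ∀ v ∈ M.F (l + 1), s v = 0 := by
          intro v hv
          apply hsk
          have : k + ((g + 1 : ℕ) : ℤ) = l + 1 := by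
            rw [hl]
            push_cast
            ring
          rwa [this]
        -- the subobject `R`
        let R : Submodule K V :=
          { carrier := {v | v ∈ M.F (k + 1) ⊔ Submodule.span K {w} ∧
              ∀ s' ∈ S, (∀ v ∈ M.F l, s' v = 0) → M.mper v s' = 0}
            add_mem' := by
              rintro x y ⟨hx, hx'⟩ ⟨hy, hy'⟩
              refine ⟨Submodule.add_mem _ hx hy, fun s' hs' hs'' => ?_⟩
              rw [M.mper_add, hx' s' hs' hs'', hy' s' hs' hs'', add_zero]
            zero_mem' := by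
              refine ⟨Submodule.zero_mem _, fun s' _ _ => ?_⟩
              funext p
              simp [Motive.mper]
            smul_mem' := by
              rintro c x ⟨hx, hx'⟩
              refine ⟨Submodule.smul_mem _ _ hx, fun s' hs' hs'' => ?_⟩
              rw [M.mper_smul, hx' s' hs' hs'', smul_zero] }
        have hXst : M.Stable (M.F (k + 1) ⊔ Submodule.span K {w}) := by
          constructor
          · intro i v hv
            obtain ⟨x, hx, y, hy, rfl⟩ := Submodule.mem_sup.1 hv
            obtain ⟨c, rfl⟩ := Submodule.mem_span_singleton.1 hy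
            rw [map_add, map_smul]
            have hFpr : ∀ (m : ℤ) (z : V), z ∈ M.F m → M.pr i z ∈ M.F m := by
              intro m z hz
              by_cases h : i < m
              · rw [hz i h]
                exact Submodule.zero_mem _
              · exact M.F_anti (not_lt.1 h) (M.pr_F _ _)
            refine Submodule.add_mem _ (Submodule.mem_sup_left (hFpr _ _ hx))
              (Submodule.smul_mem _ _ ?_)
            rcases lt_trichotomy i k with h | h | h
            · rw [hwk i h]
              exact Submodule.zero_mem _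
            · rw [h, ← sub_sub_self w (M.pr k w)]
              exact Submodule.sub_mem _
                (Submodule.mem_sup_right (Submodule.mem_span_singleton_self w))
                (Submodule.mem_sup_left (M.sub_pr_F hwk))
            · exact Submodule.mem_sup_left (M.F_anti (by omega) (M.pr_F _ _))
          · intro n v hv
            have hv' : v ∈ M.F k := by
              obtain ⟨x, hx, y, hy, rfl⟩ := Submodule.mem_sup.1 hv
              obtain ⟨c, rfl⟩ := Submodule.mem_span_singleton.1 hy
              exact Submodule.add_mem _ (M.F_anti (by omega) hx) (Submodule.smul_mem _ _ hwk)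
            have h1 : M.word [n] v ∈ M.F (k + size [n]) := M.word_F hv' [n]
            have h2 := size_pos (u := [n]) (by simp)
            exact Submodule.mem_sup_left (M.F_anti (by omega) h1)
        have hRst : M.Stable R :=
          ⟨fun i v hv => ⟨hXst.pr i v hv.1, fun s' hs' hs'' =>
            M.mper_pr v s' i (hv.2 s' hs' hs'')⟩,
          fun n v hv => ⟨hXst.σ n v hv.1, fun s' hs' hs'' =>
            M.mper_σ v s' n (hv.2 s' hs' hs'')⟩⟩
        -- the subobject `Q`
        let Q : Submodule K V :=
          { carrier := {v | v ∈ R ∧ M.mper v s = 0}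
            add_mem' := by
              rintro x y ⟨hx, hx'⟩ ⟨hy, hy'⟩
              exact ⟨Submodule.add_mem _ hx hy, by rw [M.mper_add, hx', hy', add_zero]⟩
            zero_mem' := by
              refine ⟨Submodule.zero_mem _, ?_⟩
              funext p
              simp [Motive.mper]
            smul_mem' := by
              rintro c x ⟨hx, hx'⟩
              exact ⟨Submodule.smul_mem _ _ hx, by rw [M.mper_smul, hx', smul_zero]⟩ }
        have hQst : M.Stable Q :=
          ⟨fun i v hv => ⟨hRst.pr i v hv.1, M.mper_pr v s i hv.2⟩,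
          fun n v hv => ⟨hRst.σ n v hv.1, M.mper_σ v s n hv.2⟩⟩
        have hQR : Q ≤ R := fun v hv => hv.1
        have hwR : w ∈ R :=
          ⟨Submodule.mem_sup_right (Submodule.mem_span_singleton_self w),
            fun s' hs' hs'' => ih k w hw hwk s' hs' hs''⟩
        have hFQ : ∀ v ∈ M.F l, s v = 0 → v ∈ Q := by
          intro v hv hsv
          refine ⟨⟨Submodule.mem_sup_left (M.F_anti hlk hv), fun s' _ hs'' => ?_⟩, ?_⟩
          · funext p
            show s' (M.pr (-p.1) (M.word p.2 v)) = 0
            have h1 : M.word p.2 v ∈ M.F l := M.F_anti (by omega) (M.word_F hv p.2)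
            by_cases h : -p.1 < l
            · rw [h1 _ h, map_zero]
            · exact hs'' _ (M.F_anti (not_lt.1 h) (M.pr_F _ _))
          · funext p
            show s (M.pr (-p.1) (M.word p.2 v)) = 0
            by_cases hu : p.2 = []
            · rw [hu]
              show s (M.pr (-p.1) v) = 0
              rcases lt_trichotomy (-p.1) l with h | h | h
              · rw [hv _ h, map_zero]
              · have h2 := hsl _ (M.sub_pr_F hv)
                rw [map_sub, hsv, zero_sub, neg_eq_zero] at h2
                rw [h]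
                exact h2
              · exact hsl _ (M.F_anti (by omega) (M.pr_F _ _))
            · have h1 : M.word p.2 v ∈ M.F (l + 1) := by
                have := size_pos hu
                exact M.F_anti (by omega) (M.word_F hv p.2)
              by_cases h : -p.1 < l + 1
              · rw [h1 _ h, map_zero]
              · exact hsl _ (M.F_anti (not_lt.1 h) (M.pr_F _ _))
        -- the blocks of `R / Q`
        have hWRQ : finrank K (W ⊓ R : Submodule K V) ≤
            finrank K (W ⊓ Q : Submodule K V) + 1 := by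
          refine finrank_le_add_one w ?_
          rintro v ⟨hvW, hvR⟩
          obtain ⟨x, hx, y, hy, hxy⟩ := Submodule.mem_sup.1 hvR.1
          obtain ⟨c, rfl⟩ := Submodule.mem_span_singleton.1 hy
          have hx' : v - c • w = x := by
            rw [← hxy]
            abel
          have hxW : x ∈ W := by
            rw [← hx']
            exact W.sub_mem hvW (W.smul_mem c hw)
          have hxR : x ∈ R := by
            rw [← hx']
            exact R.sub_mem hvR (R.smul_mem c hwR)
          refine ⟨c, ?_⟩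
          rw [hx']
          refine ⟨hxW, hxR, ih (k + 1) x hxW hx s hs fun v hv => hsl v ?_⟩
          have : k + 1 + (g : ℤ) = l + 1 := by
            rw [hl]
            ring
          rwa [this] at hv
        have hSRQ : finrank K (S ⊓ Q.dualAnnihilator : Submodule K (Dual K V)) ≤
            finrank K (S ⊓ R.dualAnnihilator : Submodule K (Dual K V)) + 1 := by
          refine finrank_le_add_one s ?_
          rintro s' ⟨hs'S, hs'Q⟩
          rw [SetLike.mem_coe, Submodule.mem_dualAnnihilator] at hs'Q
          obtain ⟨c, hc⟩ : ∃ c : K, ∀ v ∈ M.F l, (s' - c • s) v = 0 := by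
            by_cases hall : ∀ v ∈ M.F l, s v = 0
            · refine ⟨0, fun v hv => ?_⟩
              rw [zero_smul, sub_zero]
              exact hs'Q v (hFQ v hv (hall v hv))
            · push Not at hall
              obtain ⟨v0, hv0, hsv0⟩ := hall
              refine ⟨s' v0 / s v0, fun v hv => ?_⟩
              have h1 : v - (s v / s v0) • v0 ∈ Q := by
                refine hFQ _ (Submodule.sub_mem _ hv (Submodule.smul_mem _ _ hv0)) ?_
                rw [map_sub, map_smul, smul_eq_mul, div_mul_cancel₀ _ hsv0, sub_self]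
              have h2 := hs'Q _ h1
              rw [map_sub, map_smul, smul_eq_mul] at h2
              rw [LinearMap.sub_apply, LinearMap.smul_apply, smul_eq_mul]
              field_simp at h2 ⊢
              linear_combination h2
          refine ⟨c, S.sub_mem hs'S (S.smul_mem c hs), ?_⟩
          rw [SetLike.mem_coe, Submodule.mem_dualAnnihilator]
          intro v hv
          exact M.mper_eval (hv.2 _ (S.sub_mem hs'S (S.smul_mem c hs)) hc)
        have hcount := count T hTinj (hTX Q hQst) (hTX R hRst) W S hTW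
        have hsub := finrank_subq hQR
        have hsQ : ∀ v ∈ Q, s v = 0 := fun v hv => M.mper_eval hv.2
        have hfin := hr _ (subq M hQst hRst) (subq_width M hQst hRst hM) (by omega)
          (Submodule.Quotient.mk (⟨w, hwR⟩ : R))
          ((Q.comap R.subtype).liftQ (s.comp R.subtype) (fun _ hv => hsQ _ hv))
        rw [subq_mper M hQst hRst ⟨w, hwR⟩ s hsQ] at hfin
        exact hfin (hper w hw s hs)
  -- conclusion
  intro w hw s hs
  obtain ⟨D, hD⟩ := M.sum_pr
  obtain ⟨lo, hlo⟩ := D.bddBelow
  obtain ⟨hi, hhi⟩ := D.bddAbove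
  refine C (hi - lo + 1).toNat lo w hw (fun i hi' => ?_) s hs fun v hv => ?_
  · refine pr_out hD (fun h => ?_) w
    have := hlo h
    omega
  · have h1 : v = 0 := by
      rw [← hD v]
      refine Finset.sum_eq_zero fun i hi' => hv i ?_
      have := hhi hi'
      omega
    rw [h1, map_zero]

theorem rank_of_blocks {N j : ℕ} (a : List Letter → ℂ) (hb : BlockInjective K a N j) :
    RankInjective K a N (j + 2) := by
  intro V _ _ _ M hM hrk w s hws
  by_cases hw : w = 0
  · funext p
    simp [Motive.mper, hw]
  by_cases hs : s = 0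
  · funext p
    simp [Motive.mper, hs]
  refine hb V M hM (Submodule.span K {w}) (Submodule.span K {s}) ?_ ?_ w
    (Submodule.mem_span_singleton_self w) s (Submodule.mem_span_singleton_self s)
  · rw [finrank_span_singleton hw, finrank_span_singleton hs]
    omega
  · intro w' hw' s' hs'
    obtain ⟨c, rfl⟩ := Submodule.mem_span_singleton.1 hw'
    obtain ⟨c', rfl⟩ := Submodule.mem_span_singleton.1 hs'
    rw [M.mper_smul, M.mper_smul_right]
    have h1 : per K a (c • c' • M.mper w s) = algebraMap K ℂ (c * c') * per K a (M.mper w s) := by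
      have h2 := smul_finsum (algebraMap K ℂ (c * c')) (fun p : ℤ × List Letter =>
        algebraMap K ℂ (M.mper w s p) * ((2 * Real.pi * I) ^ p.1 * a p.2))
      rw [smul_eq_mul] at h2
      rw [per, per, h2]
      refine finsum_congr fun p => ?_
      simp only [Pi.smul_apply, smul_eq_mul, map_mul]
      ring
    rw [h1, hws, mul_zero]

/-! ### motives of rank two -/

theorem li2 {z t : ℂ} (hz : z ≠ 0) (ht : ∀ x : K, algebraMap K ℂ x ≠ t) (p q : K)
    (h : algebraMap K ℂ p * (z * t) + algebraMap K ℂ q * z = 0) : p = 0 ∧ q = 0 := by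
  have h1 : (algebraMap K ℂ p * t + algebraMap K ℂ q) * z = 0 := by
    rw [← h]
    ring
  have h2 : algebraMap K ℂ p * t + algebraMap K ℂ q = 0 := (mul_eq_zero.1 h1).resolve_right hz
  have hp : p = 0 := by
    by_contra hp
    apply ht (-q / p)
    rw [map_div₀, map_neg]
    have hp' : algebraMap K ℂ p ≠ 0 := by
      rwa [Ne, map_eq_zero]
    field_simp
    linear_combination -h2
  refine ⟨hp, ?_⟩
  rw [hp, map_zero, zero_mul, zero_add, map_eq_zero] at h2
  exact h2

theorem li3 {z t ζ : ℂ} (hz : z ≠ 0) (ht : ∀ x : K, algebraMap K ℂ x ≠ t)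
    (hζ : ∀ x y : K, algebraMap K ℂ x + algebraMap K ℂ y * t ≠ ζ) (p q r : K)
    (h : algebraMap K ℂ p * (z * t) + algebraMap K ℂ q * z + algebraMap K ℂ r * (z * ζ) = 0) :
    p = 0 ∧ q = 0 ∧ r = 0 := by
  have h3 : r = 0 := by
    by_contra h2
    apply hζ (-q / r) (-p / r)
    have hp' : algebraMap K ℂ r ≠ 0 := by
      rwa [Ne, map_eq_zero]
    have h4 : (algebraMap K ℂ p * t + algebraMap K ℂ q + algebraMap K ℂ r * ζ) * z = 0 := by
      rw [← h]
      ring
    have h5 := (mul_eq_zero.1 h4).resolve_right hz
    rw [map_div₀, map_div₀, map_neg, map_neg]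
    field_simp
    linear_combination -h5
  have h6 := li2 (K := K) hz ht p q (by
    rw [h3, map_zero, zero_mul, add_zero] at h
    exact h)
  exact ⟨h6.1, h6.2, h3⟩

omit [Algebra K ℂ] in
theorem three_degrees [FiniteDimensional K V] (M : Motive K V) {k l m : ℤ} (hkl : k ≠ l)
    (hkm : k ≠ m) (hlm : l ≠ m) (hk : M.pr k ≠ 0) (hl : M.pr l ≠ 0) (hm : M.pr m ≠ 0) :
    3 ≤ finrank K V := by
  obtain ⟨x, hx⟩ : ∃ x, M.pr k x ≠ 0 := by
    by_contra h
    push Not at h
    exact hk (LinearMap.ext h)
  obtain ⟨y, hy⟩ : ∃ x, M.pr l x ≠ 0 := by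
    by_contra h
    push Not at h
    exact hl (LinearMap.ext h)
  obtain ⟨z, hz⟩ : ∃ x, M.pr m x ≠ 0 := by
    by_contra h
    push Not at h
    exact hm (LinearMap.ext h)
  have hli : LinearIndependent K ![M.pr k x, M.pr l y, M.pr m z] := by
    rw [Fintype.linearIndependent_iff]
    intro g hg
    simp only [Fin.sum_univ_three, Matrix.cons_val_zero, Matrix.cons_val_one,
      Matrix.cons_val] at hg
    have h1 := congrArg (M.pr k) hg
    have h2 := congrArg (M.pr l) hg
    have h3 := congrArg (M.pr m) hg
    rw [map_add, map_add, map_smul, map_smul, map_smul, M.pr_self, M.pr_ne hkl, M.pr_ne hkm,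
      smul_zero, smul_zero, add_zero, add_zero, map_zero] at h1
    rw [map_add, map_add, map_smul, map_smul, map_smul, M.pr_self, M.pr_ne hkl.symm,
      M.pr_ne hlm, smul_zero, smul_zero, add_zero, zero_add, map_zero] at h2
    rw [map_add, map_add, map_smul, map_smul, map_smul, M.pr_self, M.pr_ne hkm.symm,
      M.pr_ne hlm.symm, smul_zero, smul_zero, zero_add, zero_add, map_zero] at h3
    intro i
    fin_cases i
    · exact (smul_eq_zero.1 h1).resolve_right hx
    · exact (smul_eq_zero.1 h2).resolve_right hy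
    · exact (smul_eq_zero.1 h3).resolve_right hz
  simpa using hli.fintype_card_le_finrank

theorem rank_two {N : ℕ} (a : List Letter → ℂ) (h0 : a [] = 1)
    (h1 : ∀ n : Letter, a [n] = zeta n) (hI : Independent K N) : RankInjective K a N 2 := by
  classical
  intro V _ _ _ M hM hrk w s hws
  by_cases hA : ∃ k, ∀ i, i ≠ k → M.pr i = 0
  · obtain ⟨k, hk⟩ := hA
    have h2 : ∀ p : ℤ × List Letter, p ≠ (-k, []) → M.mper w s p = 0 := by
      intro p hp
      show s (M.pr (-p.1) (M.word p.2 w)) = 0
      by_cases hpk : -p.1 = k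
      · have hu : p.2 ≠ [] := by
          intro hu
          apply hp
          rw [← hpk, ← hu, neg_neg]
        have := size_pos hu
        rw [M.pr_word, hk (-p.1 - size p.2) (by omega), LinearMap.zero_apply, map_zero, map_zero]
      · rw [hk _ hpk, LinearMap.zero_apply, map_zero]
    rw [per, finsum_eq_single _ (-k, []) (fun p hp => by rw [h2 p hp, map_zero, zero_mul]),
      h0, mul_one] at hws
    have h3 : M.mper w s (-k, []) = 0 := by
      have h4 := (mul_eq_zero.1 hws).resolve_right (zpow_ne_zero _ two_pi_I_ne)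
      rwa [map_eq_zero] at h4
    funext p
    by_cases hp : p = (-k, [])
    · rw [hp]
      exact h3
    · exact h2 p hp
  · push Not at hA
    obtain ⟨k, l, hkl, hk, hl⟩ : ∃ k l : ℤ, k < l ∧ M.pr k ≠ 0 ∧ M.pr l ≠ 0 := by
      obtain ⟨i1, _, hi1⟩ := hA 0
      obtain ⟨i2, hi12, hi2⟩ := hA i1
      rcases lt_or_gt_of_ne hi12 with h | h
      · exact ⟨i2, i1, h, hi2, hi1⟩
      · exact ⟨i1, i2, h, hi1, hi2⟩
    have hother : ∀ i, i ≠ k → i ≠ l → M.pr i = 0 := by
      intro i hik hil
      by_contra hi
      have := three_degrees M hkl.ne hik.symm hil.symm hk hl hi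
      omega
    obtain ⟨n, hn⟩ : ∃ n : ℕ, l = k + n := ⟨(l - k).toNat, by omega⟩
    have hnN : n ≤ N := by
      have := hM k l hk hl
      omega
    have hn1 : 1 ≤ n := by omega
    have hsup : ∀ p : ℤ × List Letter, p ≠ (-k, []) → p ≠ (-l, []) →
        (∀ m : Letter, (m : ℕ) = n → p ≠ (-l, [m])) → M.mper w s p = 0 := by
      intro p hp1 hp2 hp3
      show s (M.pr (-p.1) (M.word p.2 w)) = 0
      by_cases hpk : -p.1 = k
      · have hu : p.2 ≠ [] := by
          intro hu
          apply hp1
          rw [← hpk, ← hu, neg_neg]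
        have := size_pos hu
        rw [M.pr_word, hother (-p.1 - size p.2) (by omega) (by omega), LinearMap.zero_apply,
          map_zero, map_zero]
      by_cases hpl : -p.1 = l
      · have hu : p.2 ≠ [] := by
          intro hu
          apply hp2
          rw [← hpl, ← hu, neg_neg]
        obtain ⟨m, u', hmu⟩ := List.exists_cons_of_ne_nil hu
        have hm3 := m.2.2
        rw [hmu, hpl]
        by_cases hu' : u' = []
        · by_cases hmn : (m : ℕ) = n
          · exfalso
            apply hp3 m hmn
            rw [← hpl, ← hu', ← hmu, neg_neg]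
          · rw [hu', M.pr_word, hother _ _ _, LinearMap.zero_apply, map_zero, map_zero]
            · rw [size_cons, size_nil]
              push_cast
              omega
            · rw [size_cons, size_nil]
              push_cast
              omega
        · have h2 := size_pos hu'
          by_cases hs : size (m :: u') = n
          · have h3 : M.pr l (M.word (m :: u') w) = M.σ m (M.pr (l - ((m : ℕ) : ℤ)) (M.word u' w)) := by
              rw [M.raise, sub_add_cancel]
              rfl
            rw [size_cons] at hs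
            rw [h3, hother _ (by omega) (by omega), LinearMap.zero_apply, map_zero, map_zero]
          · have h4 := size_pos (u := m :: u') (by simp)
            rw [M.pr_word, hother _ (by omega) (by omega), LinearMap.zero_apply, map_zero,
              map_zero]
      · rw [hother _ hpk hpl, LinearMap.zero_apply, map_zero]
    have hz : (2 * Real.pi * I : ℂ) ^ (-l) ≠ 0 := zpow_ne_zero _ two_pi_I_ne
    have hkl' : (2 * Real.pi * I : ℂ) ^ (-k) =
        (2 * Real.pi * I) ^ (-l) * (2 * Real.pi * I) ^ n := by
      rw [← zpow_natCast, ← zpow_add₀ two_pi_I_ne]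
      congr 1
      omega
    by_cases hlet : Odd n ∧ 3 ≤ n
    · let n0 : Letter := ⟨n, hlet⟩
      have hsum : per K a (M.mper w s) =
          ∑ p ∈ ({(-k, []), (-l, []), (-l, [n0])} : Finset (ℤ × List Letter)),
            algebraMap K ℂ (M.mper w s p) * ((2 * Real.pi * I) ^ p.1 * a p.2) := by
        refine finsum_eq_sum_of_support_subset _ fun p hp => ?_
        by_contra hne
        simp only [Finset.coe_insert, Finset.coe_singleton, Set.mem_insert_iff,
          Set.mem_singleton_iff, not_or] at hne
        apply hp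
        show algebraMap K ℂ (M.mper w s p) * _ = 0
        rw [hsup p hne.1 hne.2.1 (fun m hm h => hne.2.2 (by
          rw [h, show m = n0 from Subtype.ext hm])), map_zero, zero_mul]
      rw [hsum, Finset.sum_insert (by
        simp only [Finset.mem_insert, Finset.mem_singleton, Prod.mk.injEq, not_or, not_and]
        exact ⟨fun h => by omega, fun h => by omega⟩), Finset.sum_pair (by simp)] at hws
      simp only [h0, h1, mul_one] at hws
      rw [hkl', ← add_assoc] at hws
      obtain ⟨e1, e2, e3⟩ := li3 hz (hI.1 n hn1 hnN) (hI.2 n0 hnN) _ _ _ hws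
      funext p
      by_cases hp1 : p = (-k, [])
      · rw [hp1]
        exact e1
      by_cases hp2 : p = (-l, [])
      · rw [hp2]
        exact e2
      by_cases hp3 : p = (-l, [n0])
      · rw [hp3]
        exact e3
      exact hsup p hp1 hp2 (fun m hm h => hp3 (by rw [h, show m = n0 from Subtype.ext hm]))
    · have hsum : per K a (M.mper w s) =
          ∑ p ∈ ({(-k, []), (-l, [])} : Finset (ℤ × List Letter)),
            algebraMap K ℂ (M.mper w s p) * ((2 * Real.pi * I) ^ p.1 * a p.2) := by
        refine finsum_eq_sum_of_support_subset _ fun p hp => ?_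
        by_contra hne
        simp only [Finset.coe_insert, Finset.coe_singleton, Set.mem_insert_iff,
          Set.mem_singleton_iff, not_or] at hne
        apply hp
        show algebraMap K ℂ (M.mper w s p) * _ = 0
        rw [hsup p hne.1 hne.2 (fun m hm _ => hlet (hm ▸ m.2)), map_zero, zero_mul]
      rw [hsum, Finset.sum_pair (by
        intro h
        have := congrArg Prod.fst h
        simp only at this
        omega)] at hws
      simp only [h0, mul_one] at hws
      rw [hkl'] at hws
      obtain ⟨e1, e2⟩ := li2 hz (hI.1 n hn1 hnN) _ _ hws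
      funext p
      by_cases hp1 : p = (-k, [])
      · rw [hp1]
        exact e1
      by_cases hp2 : p = (-l, [])
      · rw [hp2]
        exact e2
      exact hsup p hp1 hp2 (fun m hm _ => hlet (hm ▸ m.2))

/-- the motives of rank two: extensions of `ℚ(0)` by `ℚ(n)` -/
def M2 (n : ℕ) (hn : n ≠ 0) (g : Letter → K) (hg : ∀ m : Letter, g m ≠ 0 → (m : ℕ) = n) :
    Motive K (Fin 2 → K) where
  pr k :=
    { toFun := fun v => ![if (0 : ℤ) = k then v 0 else 0, if (n : ℤ) = k then v 1 else 0]
      map_add' := by
        intro v w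
        funext i
        fin_cases i
        · by_cases h : (0 : ℤ) = k <;> simp [h]
        · by_cases h : (n : ℤ) = k <;> simp [h]
      map_smul' := by
        intro c v
        funext i
        fin_cases i
        · by_cases h : (0 : ℤ) = k <;> simp [h]
        · by_cases h : (n : ℤ) = k <;> simp [h] }
  pr_pr := by
    intro k l v
    funext i
    by_cases hkl : k = l
    · subst hkl
      fin_cases i
      · by_cases h : (0 : ℤ) = k <;> simp [h]
      · by_cases h : (n : ℤ) = k <;> simp [h]
    · rw [if_neg hkl]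
      fin_cases i
      · by_cases h : (0 : ℤ) = k
        · have h' : (0 : ℤ) ≠ l := fun h' => hkl (h.symm.trans h')
          simp [h']
        · simp [h]
      · by_cases h : (n : ℤ) = k
        · have h' : (n : ℤ) ≠ l := fun h' => hkl (h.symm.trans h')
          simp [h']
        · simp [h]
  sum_pr := by
    refine ⟨{0, (n : ℤ)}, fun v => ?_⟩
    have h0 : (0 : ℤ) ≠ n := by exact_mod_cast hn.symm
    rw [Finset.sum_pair h0]
    funext i
    fin_cases i
    · simp [h0]
    · simp [hn]
  σ m :=
    { toFun := fun v => ![0, g m * v 0]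
      map_add' := by
        intro v w
        funext i
        fin_cases i <;> simp [mul_add]
      map_smul' := by
        intro c v
        funext i
        fin_cases i <;> simp [mul_left_comm] }
  raise := by
    intro m k v
    funext i
    fin_cases i
    · simp
    · by_cases hm : g m = 0
      · simp [hm]
      · have := hg m hm
        by_cases hk : (0 : ℤ) = k
        · subst hk
          simp [this]
        · have hk' : ¬ ((n : ℤ) = k + n) := by omega
          simp [this, hk, hk']

section
variable {n : ℕ} {hn : n ≠ 0} {g : Letter → K} {hg : ∀ m : Letter, g m ≠ 0 → (m : ℕ) = n}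

omit [Algebra K ℂ] in
theorem M2_width {N : ℕ} (hnN : n ≤ N) : (M2 n hn g hg).Width N := by
  have key : ∀ k : ℤ, (M2 n hn g hg).pr k ≠ 0 → k = 0 ∨ k = n := by
    intro k hk
    by_contra h
    push Not at h
    apply hk
    apply LinearMap.ext
    intro v
    funext i
    fin_cases i
    · simp [M2, h.1.symm]
    · simp [M2, h.2.symm]
  intro k l hk hl
  rcases key k hk with h | h <;> rcases key l hl with h' | h' <;> omega

omit [Algebra K ℂ] in
theorem M2_word (m : Letter) (u : List Letter) (v : Fin 2 → K) :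
    (M2 n hn g hg).word (m :: u) v = ![0, g m * (M2 n hn g hg).word u v 0] := rfl

/-- the linear form `v ↦ y v₀ + v₁` -/
def form (y : K) : Dual K (Fin 2 → K) where
  toFun v := y * v 0 + v 1
  map_add' v w := by simp; ring
  map_smul' c v := by simp; ring

omit [Algebra K ℂ] in
theorem M2_mper (w : Fin 2 → K) (y : K) (p : ℤ × List Letter) :
    (M2 n hn g hg).mper w (form y) p =
      y * (if (0 : ℤ) = -p.1 then (M2 n hn g hg).word p.2 w 0 else 0) +
        (if (n : ℤ) = -p.1 then (M2 n hn g hg).word p.2 w 1 else 0) := rfl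

theorem M2_per (a : List Letter → ℂ) (w : Fin 2 → K) (y : K) (T : Finset (List Letter))
    (hT0 : [] ∈ T) (hT : ∀ m : Letter, g m ≠ 0 → [m] ∈ T) :
    per K a ((M2 n hn g hg).mper w (form y)) = algebraMap K ℂ (y * w 0) * a [] +
      algebraMap K ℂ (w 1) * ((2 * Real.pi * I) ^ (-(n : ℤ)) * a []) +
      ∑ u ∈ T.erase [], algebraMap K ℂ ((M2 n hn g hg).word u w 1) *
        ((2 * Real.pi * I) ^ (-(n : ℤ)) * a u) := by
  classical
  have hn0 : (0 : ℤ) ≠ n := by exact_mod_cast hn.symm
  have h1 : per K a ((M2 n hn g hg).mper w (form y)) =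
      ∑ p ∈ ({0, -(n : ℤ)} : Finset ℤ) ×ˢ T,
        algebraMap K ℂ ((M2 n hn g hg).mper w (form y) p) *
          ((2 * Real.pi * I) ^ p.1 * a p.2) := by
    refine finsum_eq_sum_of_support_subset _ fun p hp => ?_
    by_contra hne
    apply hp
    show algebraMap K ℂ ((M2 n hn g hg).mper w (form y) p) * _ = 0
    rw [Finset.mem_coe, Finset.mem_product, not_and_or] at hne
    rw [M2_mper]
    rcases hne with h | h
    · simp only [Finset.mem_insert, Finset.mem_singleton, not_or] at h
      rw [if_neg (by omega), if_neg (by omega)]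
      simp
    · rcases hp2 : p.2 with _ | ⟨m, u'⟩
      · rw [hp2] at h
        exact absurd hT0 h
      · have h2 : (M2 n hn g hg).word (m :: u') w = 0 := by
          rw [M2_word]
          rcases u' with _ | ⟨m', u''⟩
          · have hgm : g m = 0 := by
              by_contra hgm
              rw [hp2] at h
              exact h (hT m hgm)
            funext i
            fin_cases i <;> simp [hgm]
          · rw [M2_word]
            funext i
            fin_cases i <;> simp
        rw [h2]
        simp
  rw [h1, Finset.sum_product, Finset.sum_pair (by omega)]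
  have h3 : ∑ u ∈ T, algebraMap K ℂ ((M2 n hn g hg).mper w (form y) (0, u)) *
      ((2 * Real.pi * I) ^ (0 : ℤ) * a u) = algebraMap K ℂ (y * w 0) * a [] := by
    rw [Finset.sum_eq_single []]
    · rw [M2_mper]
      simp [hn, Motive.word]
    · intro u hu hu0
      obtain ⟨m, u', rfl⟩ := List.exists_cons_of_ne_nil hu0
      rw [M2_mper, M2_word]
      simp [hn]
    · intro h
      exact absurd hT0 h
  have h4 : ∀ u ∈ T.erase [], algebraMap K ℂ ((M2 n hn g hg).mper w (form y) (-(n : ℤ), u)) *
      ((2 * Real.pi * I) ^ (-(n : ℤ)) * a u) =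
      algebraMap K ℂ ((M2 n hn g hg).word u w 1) * ((2 * Real.pi * I) ^ (-(n : ℤ)) * a u) := by
    intro u _
    rw [M2_mper]
    simp [hn0]
  rw [h3, ← Finset.add_sum_erase T _ hT0, Finset.sum_congr rfl h4, ← add_assoc]
  congr 2
  rw [M2_mper]
  simp [hn0, Motive.word]

end

theorem independent_of_rank_two {N : ℕ} (a : List Letter → ℂ) (h0 : a [] = 1)
    (h1 : ∀ n : Letter, a [n] = zeta n) (h : RankInjective K a N 2) : Independent K N := by
  classical
  constructor
  · intro n hn1 hnN x hx
    have hn : n ≠ 0 := by omega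
    have hw := h (Fin 2 → K) (M2 n hn (fun _ => 0) (fun m hm => absurd rfl hm))
      (M2_width hnN) (by simp) ![1, x] (form (-1)) (by
        rw [M2_per a _ _ {[]} (by simp) (fun m hm => absurd rfl hm)]
        have := pow_ne_zero n two_pi_I_ne
        simp only [Matrix.cons_val_zero, Matrix.cons_val_one, hx, h0, zpow_neg, zpow_natCast,
          Finset.erase_singleton, Finset.sum_empty, mul_one, map_neg, map_one, add_zero]
        field_simp
        ring)
    have h4 := congrFun hw (0, [])
    rw [M2_mper] at h4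
    simp [hn, Motive.word] at h4
  · intro n hnN x y hxy
    have hn3 := n.2.2
    have hn : (n : ℕ) ≠ 0 := by omega
    have hgn : ∀ m : Letter, (if m = n then (1 : K) else 0) ≠ 0 → (m : ℕ) = n := by
      intro m hm
      by_contra hmn
      apply hm
      rw [if_neg]
      intro h'
      exact hmn (by rw [h'])
    have hw := h (Fin 2 → K) (M2 n hn (fun m => if m = n then (1 : K) else 0) hgn)
      (M2_width hnN) (by simp) ![1, -x] (form (-y)) (by
        rw [M2_per a _ _ {[], [n]} (by simp) (fun m hm => by
          have : m = n := by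
            by_contra h'
            exact hm (if_neg h')
          simp [this])]
        have h5 : ({[], [n]} : Finset (List Letter)).erase [] = {[n]} := by
          rw [Finset.erase_insert_eq_erase, Finset.erase_eq_of_notMem]
          simp
        have := pow_ne_zero (n : ℕ) two_pi_I_ne
        rw [h5, Finset.sum_singleton, M2_word, h0, h1, ← hxy]
        simp only [Matrix.cons_val_zero, Matrix.cons_val_one, zpow_neg, zpow_natCast, mul_one,
          map_neg, map_one, if_true, Motive.word, LinearMap.id_apply, one_mul]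
        field_simp
        ring)
    have h4 := congrFun hw (-((n : ℕ) : ℤ), [n])
    rw [M2_mper] at h4
    simp [Motive.word, M2] at h4

/-! ### coefficients in real algebraic numbers -/

theorem not_algebraic_pow (n : ℕ) (hn : 1 ≤ n) :
    ¬ IsAlgebraic ℚ ((2 * Real.pi * I : ℂ) ^ n) := by
  intro h
  have h1 : IsAlgebraic ℚ (2 * Real.pi * I : ℂ) := h.of_pow (by omega)
  have h2 : IsAlgebraic ℚ ((2 * Real.pi * I : ℂ) * (2 * I)⁻¹) := by
    refine h1.mul (IsAlgebraic.inv ?_)
    refine IsAlgebraic.mul ?_ Agent.H340R2.LW.isAlgebraic_I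
    exact_mod_cast isAlgebraic_algebraMap (R := ℚ) (A := ℂ) (2 : ℚ)
  apply Agent.H340R2.LW.transcendental_pi_complex
  have h3 : (2 * Real.pi * I : ℂ) * (2 * I)⁻¹ = Real.pi := by
    have := I_ne_zero
    field_simp
  rwa [h3] at h2

theorem odd_pow (n : ℕ) (hn : Odd n) : ∃ r : ℝ, (2 * Real.pi * I : ℂ) ^ n = r * I := by
  obtain ⟨k, rfl⟩ := hn
  refine ⟨(-(2 * Real.pi) ^ 2) ^ k * (2 * Real.pi), ?_⟩
  have h1 : (2 * Real.pi * I : ℂ) ^ 2 = ((-(2 * Real.pi) ^ 2 : ℝ) : ℂ) := by
    rw [mul_pow, I_sq]
    push_cast
    ring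
  rw [pow_succ, pow_mul, h1]
  push_cast
  ring

theorem independent_iff (hr : ∀ x : K, (algebraMap K ℂ x).im = 0)
    (ha : ∀ x : K, IsAlgebraic ℚ (algebraMap K ℂ x)) (N : ℕ) :
    Independent K N ↔ ∀ n : Letter, (n : ℕ) ≤ N → ∀ x : K, algebraMap K ℂ x ≠ zeta n := by
  constructor
  · intro h n hn x hx
    exact h.2 n hn x 0 (by rw [map_zero, zero_mul, add_zero, hx])
  · intro h
    refine ⟨fun n hn _ x hx => not_algebraic_pow n hn (hx ▸ ha x), fun n hn x y hxy => ?_⟩
    apply h n hn x
    obtain ⟨r, hr'⟩ := odd_pow n n.2.1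
    rw [hr'] at hxy
    have h1 := congrArg Complex.re hxy
    have h2 : (algebraMap K ℂ y * (r * I)).re = 0 := by
      simp [Complex.mul_re, hr y]
    rw [Complex.add_re, h2, add_zero, Complex.ofReal_re] at h1
    apply Complex.ext
    · rw [h1, Complex.ofReal_re]
    · rw [hr x, Complex.ofReal_im]

/-! ### every motivic period is a matrix coefficient -/

/-- `per` is injective on the whole ring `P` of motivic periods with coefficients in `K`. -/
def PerInjective (K : Type) [Field K] [Algebra K ℂ] (a : List Letter → ℂ) : Prop :=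
  ∀ x : ℤ × List Letter → K, (Function.support x).Finite → per K a x = 0 → x = 0

omit [Algebra K ℂ] in
theorem exists_bounds (M : Motive K V) : ∃ D : Finset ℤ, (∀ v : V, ∑ k ∈ D, M.pr k v = v) ∧
    ∃ N : ℕ, M.Width N := by
  obtain ⟨D, hD⟩ := M.sum_pr
  obtain ⟨lo, hlo⟩ := D.bddBelow
  obtain ⟨hi, hhi⟩ := D.bddAbove
  refine ⟨D, hD, (hi - lo).toNat, fun k l hk hl => ?_⟩
  have h1 : k ∈ D := by
    by_contra h
    exact hk (LinearMap.ext fun v => pr_out hD h v)
  have h2 : l ∈ D := by
    by_contra h
    exact hl (LinearMap.ext fun v => pr_out hD h v)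
  have h3 := hlo h1
  have h4 := hhi h2
  omega

omit [Algebra K ℂ] in
theorem mper_support (M : Motive K V) (w : V) (s : Dual K V) :
    (Function.support (M.mper w s)).Finite := by
  classical
  obtain ⟨D, hD, N, hN⟩ := exists_bounds M
  refine ((D.image fun i => -i) ×ˢ B N).finite_toSet.subset fun p hp => ?_
  rw [Function.mem_support] at hp
  rw [Finset.mem_coe, Finset.mem_product]
  constructor
  · by_contra hne
    apply hp
    show s (M.pr (-p.1) (M.word p.2 w)) = 0
    rw [pr_out hD (fun h => hne (Finset.mem_image.2 ⟨-p.1, h, neg_neg _⟩)), map_zero]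
  · by_contra hne
    apply hp
    show s (M.pr (-p.1) (M.word p.2 w)) = 0
    rw [pr_word_large M hN _ hne, map_zero]

section Free

variable (Ks : Finset ℤ) (D : ℕ)

/-- the index set of a basis: pairs of a degree in `Ks` and a word of size at most `D` -/
abbrev Idx := {q : ℤ × List Letter // q ∈ Ks ×ˢ B D}

theorem tail_mem {k : ℤ} {m : Letter} {u : List Letter} (h : (k, m :: u) ∈ Ks ×ˢ B D) :
    (k, u) ∈ Ks ×ˢ B D := by
  rw [Finset.mem_product, mem_B] at h ⊢
  refine ⟨h.1, ?_⟩
  have h2 : size (m :: u) ≤ D := h.2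
  rw [size_cons] at h2
  show size u ≤ D
  omega

/-- the action of `σ_n` on the truncated free module: it maps the basis vector `(k, u)` to
`(k, n :: u)` -/
def freeσ (n : Letter) (v : Idx Ks D → K) : Idx Ks D → K
  | ⟨(_, []), _⟩ => 0
  | ⟨(k, m :: u), h⟩ => if m = n then v ⟨(k, u), tail_mem Ks D h⟩ else 0

/-- truncated free module -/
def free : Motive K (Idx Ks D → K) where
  pr i :=
    { toFun := fun v q => if q.1.1 + size q.1.2 = i then v q else 0
      map_add' := by
        intro v w
        funext q
        by_cases h : q.1.1 + size q.1.2 = i <;> simp [h]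
      map_smul' := by
        intro c v
        funext q
        by_cases h : q.1.1 + size q.1.2 = i <;> simp [h] }
  pr_pr := by
    intro k l v
    funext q
    by_cases hkl : k = l
    · subst hkl
      by_cases h : q.1.1 + size q.1.2 = k <;> simp [h]
    · rw [if_neg hkl]
      by_cases h : q.1.1 + size q.1.2 = k
      · have h' : q.1.1 + size q.1.2 ≠ l := fun h' => hkl (h.symm.trans h')
        simp [h']
      · simp [h]
  sum_pr := by
    classical
    refine ⟨Finset.univ.image fun q : Idx Ks D => q.1.1 + size q.1.2, fun v => ?_⟩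
    funext q
    rw [Finset.sum_apply]
    simp only [LinearMap.coe_mk, AddHom.coe_mk]
    rw [Finset.sum_ite_eq, if_pos (Finset.mem_image_of_mem _ (Finset.mem_univ q))]
  σ n :=
    { toFun := freeσ Ks D n
      map_add' := by
        intro v w
        funext ⟨⟨k, u⟩, h⟩
        rcases u with _ | ⟨m, u⟩
        · simp [freeσ]
        · by_cases hm : m = n <;> simp [freeσ, hm]
      map_smul' := by
        intro c v
        funext ⟨⟨k, u⟩, h⟩
        rcases u with _ | ⟨m, u⟩
        · simp [freeσ]
        · by_cases hm : m = n <;> simp [freeσ, hm] }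
  raise := by
    intro n i v
    funext ⟨⟨k, u⟩, h⟩
    rcases u with _ | ⟨m, u⟩
    · simp [freeσ]
    · by_cases hm : m = n
      · subst hm
        have h1 : (k + (size (m :: u) : ℤ) = i + ((m : ℕ) : ℤ)) ↔ k + (size u : ℤ) = i := by
          rw [size_cons]
          push_cast
          omega
        by_cases h2 : k + (size u : ℤ) = i
        · simp [freeσ, h2, h1.2 h2]
        · have h3 : ¬ (k + (size (m :: u) : ℤ) = i + ((m : ℕ) : ℤ)) := fun h3 => h2 (h1.1 h3)
          simp [freeσ, h2, h3]
      · simp [freeσ, hm]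

omit [Algebra K ℂ] in
theorem free_word (u : List Letter) (q : Idx Ks D) :
    (free (K := K) Ks D).word u (fun q => if q.1.2 = [] then 1 else 0) q =
      if q.1.2 = u then 1 else 0 := by
  induction u generalizing q with
  | nil => rfl
  | cons n u ih =>
    show freeσ Ks D n ((free (K := K) Ks D).word u _) q = _
    obtain ⟨⟨k, u'⟩, h⟩ := q
    rcases u' with _ | ⟨m, u'⟩
    · simp [freeσ]
    · show (if m = n then (free (K := K) Ks D).word u _ ⟨(k, u'), tail_mem Ks D h⟩ else 0) = _
      rw [ih]
      by_cases hm : m = n <;> by_cases hu : u' = u <;> simp [hm, hu]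

end Free

omit [Algebra K ℂ] in
theorem exists_matrix_coefficient (x : ℤ × List Letter → K) (hx : (Function.support x).Finite) :
    ∃ (V : Type) (_ : AddCommGroup V) (_ : Module K V) (_ : FiniteDimensional K V)
      (M : Motive K V) (w : V) (s : Dual K V), M.mper w s = x := by
  classical
  obtain ⟨D, hD⟩ : ∃ D : ℕ, ∀ p ∈ hx.toFinset, size p.2 ≤ D :=
    ⟨hx.toFinset.sup fun p => size p.2, fun p hp => Finset.le_sup (f := fun p => size p.2) hp⟩
  let Ks : Finset ℤ := hx.toFinset.image fun p => -p.1 - size p.2
  let s : Dual K (Idx Ks D → K) :=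
    { toFun := fun v => ∑ q : Idx Ks D, x (-(q.1.1 + size q.1.2), q.1.2) * v q
      map_add' := fun v w => by simp [mul_add, Finset.sum_add_distrib]
      map_smul' := fun c v => by
        simp only [Pi.smul_apply, smul_eq_mul, RingHom.id_apply, Finset.mul_sum]
        exact Finset.sum_congr rfl fun q _ => by ring }
  refine ⟨Idx Ks D → K, inferInstance, inferInstance, inferInstance, free Ks D,
    fun q => if q.1.2 = [] then 1 else 0, s, ?_⟩
  funext p
  have h1 : (free (K := K) Ks D).mper (fun q => if q.1.2 = [] then 1 else 0) s p =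
      ∑ q : Idx Ks D, x (-(q.1.1 + size q.1.2), q.1.2) *
        (if q.1.1 + size q.1.2 = -p.1 then (if q.1.2 = p.2 then 1 else 0) else 0) := by
    show ∑ q : Idx Ks D, x (-(q.1.1 + size q.1.2), q.1.2) *
      (if q.1.1 + size q.1.2 = -p.1 then (free (K := K) Ks D).word p.2 _ q else 0) = _
    refine Finset.sum_congr rfl fun q _ => ?_
    rw [free_word]
  rw [h1]
  by_cases hp : x p = 0
  · rw [hp]
    refine Finset.sum_eq_zero fun q _ => ?_
    split_ifs with h2 h3
    · rw [h2, h3, neg_neg, hp, zero_mul]
    · rw [mul_zero]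
    · rw [mul_zero]
  · have hpm : p ∈ hx.toFinset := by
      rw [Set.Finite.mem_toFinset]
      exact hp
    have hq0 : (-p.1 - (size p.2 : ℤ), p.2) ∈ Ks ×ˢ B D := by
      rw [Finset.mem_product]
      exact ⟨Finset.mem_image_of_mem (fun p : ℤ × List Letter => -p.1 - (size p.2 : ℤ)) hpm,
        mem_B.2 (hD p hpm)⟩
    rw [Finset.sum_eq_single (⟨_, hq0⟩ : Idx Ks D)]
    · simp
    · rintro q _ hq
      split_ifs with h2 h3
      · exfalso
        apply hq
        apply Subtype.ext
        apply Prod.ext
        · show q.1.1 = -p.1 - (size p.2 : ℤ)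
          rw [← h3]
          omega
        · exact h3
      · rw [mul_zero]
      · rw [mul_zero]
    · intro h
      exact absurd (Finset.mem_univ _) h

theorem perInjective_iff (a : List Letter → ℂ) :
    PerInjective K a ↔ ∀ N j : ℕ, BlockInjective K a N j := by
  constructor
  · intro h N j V _ _ _ M _ W S _ hper w hw s hs
    exact h _ (mper_support M w s) (hper w hw s hs)
  · intro h x hx hxp
    obtain ⟨V, _, _, _, M, w, s, rfl⟩ := exists_matrix_coefficient x hx
    obtain ⟨D, hD, N, hN⟩ := exists_bounds M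
    exact rank_of_blocks a (h N (finrank K V)) V M hN (by omega) w s hxp

/-! ### unconditional cases -/

theorem zr_two : Agent.H337R2.zr 2 = Real.pi ^ 2 / 6 := by
  have h := (hasSum_nat_add_iff' (f := fun n : ℕ => (1 : ℝ) / (n : ℝ) ^ 2) 1).2 hasSum_zeta_two
  have h2 : Agent.H337R2.zr 2 = ∑' n : ℕ, (1 : ℝ) / ((n + 1 : ℕ) : ℝ) ^ 2 := by
    rw [Agent.H337R2.zr]
    exact tsum_congr fun n => by push_cast; rfl
  rw [h2, h.tsum_eq]
  simp

theorem zr_four : Agent.H337R2.zr 4 = Real.pi ^ 4 / 90 := by
  have h := (hasSum_nat_add_iff' (f := fun n : ℕ => (1 : ℝ) / (n : ℝ) ^ 4) 1).2 hasSum_zeta_four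
  have h2 : Agent.H337R2.zr 4 = ∑' n : ℕ, (1 : ℝ) / ((n + 1 : ℕ) : ℝ) ^ 4 := by
    rw [Agent.H337R2.zr]
    exact tsum_congr fun n => by push_cast; rfl
  rw [h2, h.tsum_eq]
  simp

/-- `1, ζ(2), ζ(3)` are linearly independent -/
theorem indep_two (x y z : ℚ) (h : (x : ℝ) + y * Real.pi ^ 2 + z * zeta 3 = 0) :
    x = 0 ∧ y = 0 ∧ z = 0 := by
  have hli := Pool.Agent.LZ.Z3_linind
  rw [Fintype.linearIndependent_iff] at hli
  have h2 := hli ![x, 6 * y, z] (by
    rw [Fin.sum_univ_three]
    simp only [Matrix.cons_val_zero, Matrix.cons_val_one, Matrix.cons_val, Rat.smul_def]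
    have h3 : Pool.Agent.H337R2.zr 3 = zeta 3 := rfl
    rw [h3, zr_two, ← h]
    push_cast
    ring)
  have e0 := h2 0
  have e1 := h2 1
  have e2 := h2 2
  simp at e0 e1 e2
  exact ⟨e0, e1, e2⟩

/-- `1, ζ(3), ζ(4)` are linearly independent -/
theorem indep_four (x y z : ℚ) (h : (x : ℝ) + y * Real.pi ^ 4 + z * zeta 3 = 0) :
    x = 0 ∧ y = 0 ∧ z = 0 := by
  have hli := Pool.Agent.ZF.Z3_linind
  rw [Fintype.linearIndependent_iff] at hli
  have h2 := hli ![x, z, 90 * y] (by
    rw [Fin.sum_univ_three]
    simp only [Matrix.cons_val_zero, Matrix.cons_val_one, Matrix.cons_val, Rat.smul_def]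
    have h3 : Pool.Agent.H337R2.zr 3 = zeta 3 := rfl
    rw [h3, zr_four, ← h]
    push_cast
    ring)
  have e0 := h2 0
  have e1 := h2 1
  have e2 := h2 2
  simp at e0 e1 e2
  exact ⟨e0, e2, e1⟩

/-- `1, π ^ 2, π ^ 4` are linearly independent -/
theorem indep_pi (x y z : ℚ) (h : (x : ℝ) + y * Real.pi ^ 2 + z * Real.pi ^ 4 = 0) :
    x = 0 ∧ y = 0 ∧ z = 0 := by
  have htr := Agent.H340R2.LW.transcendental_pi
  rw [transcendental_iff] at htr
  have h1 := htr (Polynomial.C x + Polynomial.C y * Polynomial.X ^ 2 +
    Polynomial.C z * Polynomial.X ^ 4) (by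
      simp only [map_add, map_mul, map_pow, Polynomial.aeval_C, Polynomial.aeval_X]
      simpa using h)
  have e0 := congrArg (fun p => Polynomial.coeff p 0) h1
  have e2 := congrArg (fun p => Polynomial.coeff p 2) h1
  have e4 := congrArg (fun p => Polynomial.coeff p 4) h1
  simp [Polynomial.coeff_X_pow, Polynomial.coeff_C] at e0 e2 e4
  exact ⟨e0, e2, e4⟩

/-- the letter `3` -/
def n3 : Letter := ⟨3, by decide, le_refl 3⟩

theorem B_four : B 4 = {[], [n3]} := by
  classical
  ext u
  rw [mem_B, Finset.mem_insert, Finset.mem_singleton]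
  constructor
  · intro h
    rcases u with _ | ⟨n, u⟩
    · exact Or.inl rfl
    · right
      rw [size_cons] at h
      have h3 := n.2.2
      have hu : u = [] := by
        rcases u with _ | ⟨m, u⟩
        · rfl
        · have h4 := m.2.2
          rw [size_cons] at h
          omega
      subst hu
      have hn : (n : ℕ) = 3 := by
        obtain ⟨k, hk⟩ := n.2.1
        rw [size_nil] at h
        omega
      rw [show n = n3 from Subtype.ext hn]
  · rintro (rfl | rfl)
    · simp
    · rw [size_cons, size_nil]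
      show 3 + 0 ≤ 4
      omega

omit [Algebra K ℂ] in
theorem card_le_finrank [FiniteDimensional K V] (M : Motive K V) (Δ : Finset ℤ)
    (h : ∀ k ∈ Δ, M.pr k ≠ 0) : Δ.card ≤ finrank K V := by
  classical
  have h1 : ∀ k : Δ, ∃ x, M.pr k x ≠ 0 := by
    intro k
    by_contra h'
    push Not at h'
    exact h k k.2 (LinearMap.ext h')
  choose x hx using h1
  have hli : LinearIndependent K (fun k : Δ => M.pr k (x k)) := by
    rw [Fintype.linearIndependent_iff]
    intro g hg l
    have h2 := congrArg (M.pr l) hg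
    rw [map_sum, map_zero, Finset.sum_eq_single l] at h2
    · rw [map_smul, M.pr_self] at h2
      exact (smul_eq_zero.1 h2).resolve_right (hx l)
    · intro k _ hk
      rw [map_smul, M.pr_ne (fun h' => hk (Subtype.ext h'.symm)), smul_zero]
    · intro h'
      exact absurd (Finset.mem_univ l) h'
  simpa using hli.fintype_card_le_finrank

/-- the relation given by a vanishing period, for weights in an interval of length four -/
theorem width_four {V : Type} [AddCommGroup V] [Module ℚ V] (a : List Letter → ℂ) (h0 : a [] = 1)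
    (h1 : ∀ n : Letter, a [n] = zeta n) (M : Motive ℚ V) (b : ℤ)
    (hb : ∀ i, M.pr i ≠ 0 → b ≤ i ∧ i ≤ b + 4) (w : V) (s : Dual ℚ V)
    (hws : per ℚ a (M.mper w s) = 0) :
    s (M.pr (b + 1) w) = 0 ∧ s (M.pr (b + 3) w) = 0 ∧ s (M.pr (b + 3) (M.σ n3 w)) = 0 ∧
      ((s (M.pr (b + 4) w) : ℚ) : ℝ) - (s (M.pr (b + 2) w) : ℚ) * (2 * Real.pi) ^ 2 +
        (s (M.pr b w) : ℚ) * (2 * Real.pi) ^ 4 + (s (M.pr (b + 4) (M.σ n3 w)) : ℚ) * zeta 3 = 0 := by
  classical
  have hW : M.Width 4 := by
    intro k l hk hl
    have h2 := hb k hk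
    have h3 := hb l hl
    push_cast
    omega
  obtain ⟨D, hD⟩ := M.sum_pr
  have hD' : ∀ v : V, ∑ k ∈ (Finset.range 5).image (fun m : ℕ => b + (m : ℤ)), M.pr k v = v := by
    intro v
    conv_rhs => rw [← hD v]
    have h2 : ∑ k ∈ D ∩ (Finset.range 5).image (fun m : ℕ => b + (m : ℤ)), M.pr k v =
        ∑ k ∈ D, M.pr k v := by
      refine Finset.sum_subset Finset.inter_subset_left fun k hk hk' => ?_
      have h3 : M.pr k = 0 := by
        by_contra h3
        have h4 := hb k h3
        apply hk'
        rw [Finset.mem_inter, Finset.mem_image]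
        exact ⟨hk, (k - b).toNat, Finset.mem_range.2 (by omega), by omega⟩
      rw [h3]
      rfl
    rw [← h2]
    refine (Finset.sum_subset Finset.inter_subset_right fun k _ hk' => ?_).symm
    have h3 : k ∉ D := fun h => hk' (Finset.mem_inter.2 ⟨h, ‹_›⟩)
    exact pr_out hD h3 v
  have hlow : ∀ m : ℤ, m < 3 → M.pr (b + m) (M.σ n3 w) = 0 := by
    intro m hm
    have h2 : M.pr (b + m) (M.σ n3 w) = M.σ n3 (M.pr (b + m - 3) w) := by
      rw [M.raise]
      show M.pr (b + m) (M.σ n3 w) = M.pr (b + m - 3 + ((3 : ℕ) : ℤ)) (M.σ n3 w)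
      congr 2
      push_cast
      ring
    have h3 : M.pr (b + m - 3) = 0 := by
      by_contra h3
      have := hb _ h3
      omega
    rw [h2, h3, LinearMap.zero_apply, map_zero]
  rw [per_eq M hW hD', B_four, Finset.sum_image (fun x _ y _ h => by
    have h' : b + (x : ℤ) = b + (y : ℤ) := h
    omega)] at hws
  have hpair : ∀ m : ℕ, ∑ u ∈ ({[], [n3]} : Finset (List Letter)),
      s (M.pr (b + (m : ℤ)) (M.word u w)) • cc a (-(b + (m : ℤ))) u =
      ((s (M.pr (b + (m : ℤ)) w) : ℚ) : ℂ) * (2 * Real.pi * I) ^ (-(b + (m : ℤ))) +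
      ((s (M.pr (b + (m : ℤ)) (M.σ n3 w)) : ℚ) : ℂ) *
        ((2 * Real.pi * I) ^ (-(b + (m : ℤ))) * zeta 3) := by
    intro m
    rw [Finset.sum_pair (by simp), cc, cc, h0, h1, mul_one, Rat.smul_def, Rat.smul_def]
    rfl
  simp only [hpair] at hws
  rw [Finset.sum_range_succ, Finset.sum_range_succ, Finset.sum_range_succ,
    Finset.sum_range_succ, Finset.sum_range_one] at hws
  simp only [Nat.cast_zero, add_zero, Nat.cast_one, Nat.cast_ofNat] at hws
  rw [show M.pr b (M.σ n3 w) = 0 by simpa using hlow 0 (by norm_num), hlow 1 (by norm_num),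
    hlow 2 (by norm_num)] at hws
  simp only [map_zero, Rat.cast_zero, zero_mul, add_zero] at hws
  have hz : (2 * Real.pi * I : ℂ) ^ (-(b + 4)) ≠ 0 := zpow_ne_zero _ two_pi_I_ne
  have hpow : ∀ m : ℤ, ∀ e : ℕ, m + e = 4 → (2 * Real.pi * I : ℂ) ^ (-(b + m)) =
      (2 * Real.pi * I) ^ (-(b + 4)) * (2 * Real.pi * I) ^ e := by
    intro m e hme
    rw [← zpow_natCast, ← zpow_add₀ two_pi_I_ne]
    congr 1
    omega
  rw [show (2 * Real.pi * I : ℂ) ^ (-b) = (2 * Real.pi * I) ^ (-(b + 0)) by rw [add_zero],
    hpow 0 4 (by norm_num), hpow 1 3 (by norm_num), hpow 2 2 (by norm_num),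
    hpow 3 1 (by norm_num)] at hws
  set x0 : ℚ := s (M.pr b w)
  set x1 : ℚ := s (M.pr (b + 1) w)
  set x2 : ℚ := s (M.pr (b + 2) w)
  set x3 : ℚ := s (M.pr (b + 3) w)
  set x4 : ℚ := s (M.pr (b + 4) w)
  set y3 : ℚ := s (M.pr (b + 3) (M.σ n3 w))
  set y4 : ℚ := s (M.pr (b + 4) (M.σ n3 w))
  have h2 : (((x4 : ℝ) - x2 * (2 * Real.pi) ^ 2 + x0 * (2 * Real.pi) ^ 4 + y4 * zeta 3 : ℝ) : ℂ) +
      ((-(x1 : ℝ) * (2 * Real.pi) ^ 3 + x3 * (2 * Real.pi) +
        y3 * (2 * Real.pi) * zeta 3 : ℝ) : ℂ) * I = 0 := by
    have h3 : ((2 * Real.pi * I : ℂ) ^ (-(b + 4))) * ((((x4 : ℝ) - x2 * (2 * Real.pi) ^ 2 +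
        x0 * (2 * Real.pi) ^ 4 + y4 * zeta 3 : ℝ) : ℂ) +
      ((-(x1 : ℝ) * (2 * Real.pi) ^ 3 + x3 * (2 * Real.pi) +
        y3 * (2 * Real.pi) * zeta 3 : ℝ) : ℂ) * I) = 0 := by
      rw [← hws]
      have hI2 : I ^ 2 = -1 := I_sq
      have hI3 : I ^ 3 = -I := by
        rw [pow_succ, hI2]
        ring
      have hI4 : I ^ 4 = 1 := I_pow_four
      simp only [mul_pow, hI2, hI3, hI4, pow_one]
      push_cast
      ring
    exact (mul_eq_zero.1 h3).resolve_left hz
  have hre := congrArg Complex.re h2
  have him := congrArg Complex.im h2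
  simp only [Complex.add_re, Complex.mul_re, Complex.ofReal_re, Complex.ofReal_im, Complex.I_re,
    Complex.I_im, mul_zero, mul_one, sub_zero, add_zero, Complex.zero_re] at hre
  simp only [Complex.add_im, Complex.mul_im, Complex.ofReal_re, Complex.ofReal_im, Complex.I_re,
    Complex.I_im, mul_zero, mul_one, add_zero, zero_add, Complex.zero_im] at him
  have hpi : (2 * Real.pi) ≠ 0 := by positivity
  have him2 : ((x3 : ℚ) : ℝ) + ((-4 * x1 : ℚ) : ℝ) * Real.pi ^ 2 + (y3 : ℝ) * zeta 3 = 0 := by
    have h3 : (2 * Real.pi) * (((x3 : ℚ) : ℝ) + ((-4 * x1 : ℚ) : ℝ) * Real.pi ^ 2 +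
        (y3 : ℝ) * zeta 3) = 0 := by
      rw [← him]
      push_cast
      ring
    exact (mul_eq_zero.1 h3).resolve_left hpi
  obtain ⟨e3, e1, ey⟩ := indep_two _ _ _ him2
  refine ⟨by linarith, e3, ey, ?_⟩
  rw [← hre]

theorem mper_zero {V : Type} [AddCommGroup V] [Module ℚ V] (M : Motive ℚ V) (b : ℤ)
    (hb : ∀ i, M.pr i ≠ 0 → b ≤ i ∧ i ≤ b + 4) (w : V) (s : Dual ℚ V)
    (e0 : s (M.pr b w) = 0) (e1 : s (M.pr (b + 1) w) = 0) (e2 : s (M.pr (b + 2) w) = 0)
    (e3 : s (M.pr (b + 3) w) = 0) (e4 : s (M.pr (b + 4) w) = 0)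
    (f3 : s (M.pr (b + 3) (M.σ n3 w)) = 0) (f4 : s (M.pr (b + 4) (M.σ n3 w)) = 0) :
    M.mper w s = 0 := by
  have hW : M.Width 4 := by
    intro k l hk hl
    have h2 := hb k hk
    have h3 := hb l hl
    push_cast
    omega
  funext p
  show s (M.pr (-p.1) (M.word p.2 w)) = 0
  by_cases hi : M.pr (-p.1) = 0
  · rw [hi, LinearMap.zero_apply, map_zero]
  have hb' := hb _ hi
  by_cases hu : p.2 ∈ B 4
  swap
  · rw [pr_word_large M hW _ hu, map_zero]
  rw [B_four, Finset.mem_insert, Finset.mem_singleton] at hu
  have hcases : -p.1 = b ∨ -p.1 = b + 1 ∨ -p.1 = b + 2 ∨ -p.1 = b + 3 ∨ -p.1 = b + 4 := by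
    omega
  rcases hu with hu | hu
  · rw [hu]
    show s (M.pr (-p.1) w) = 0
    rcases hcases with h | h | h | h | h <;> rw [h] <;> assumption
  · rw [hu]
    show s (M.pr (-p.1) (M.σ n3 w)) = 0
    have hlow : ∀ m : ℤ, m < 3 → -p.1 = b + m → s (M.pr (-p.1) (M.σ n3 w)) = 0 := by
      intro m hm hpm
      have h2 : M.pr (b + m) (M.σ n3 w) = M.σ n3 (M.pr (b + m - 3) w) := by
        rw [M.raise]
        show M.pr (b + m) (M.σ n3 w) = M.pr (b + m - 3 + ((3 : ℕ) : ℤ)) (M.σ n3 w)
        congr 2
        push_cast
        ring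
      have h3 : M.pr (b + m - 3) = 0 := by
        by_contra h3
        have := hb _ h3
        omega
      rw [hpm, h2, h3, LinearMap.zero_apply, map_zero, map_zero]
    rcases hcases with h | h | h | h | h
    · exact hlow 0 (by norm_num) (by rw [h, add_zero])
    · exact hlow 1 (by norm_num) h
    · exact hlow 2 (by norm_num) h
    · rw [h]
      exact f3
    · rw [h]
      exact f4

omit [Algebra K ℂ] in
theorem exists_min (M : Motive K V) (h : ∃ i, M.pr i ≠ 0) :
    ∃ b, M.pr b ≠ 0 ∧ ∀ i, M.pr i ≠ 0 → b ≤ i := by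
  classical
  obtain ⟨D, hD⟩ := M.sum_pr
  obtain ⟨i0, hi0⟩ := h
  have hout : ∀ i, M.pr i ≠ 0 → i ∈ D := by
    intro i hi
    by_contra h
    exact hi (LinearMap.ext fun v => pr_out hD h v)
  obtain ⟨b, hb, hmin⟩ := Finset.exists_min_image (D.filter fun i => M.pr i ≠ 0) id
    ⟨i0, Finset.mem_filter.2 ⟨hout i0 hi0, hi0⟩⟩
  rw [Finset.mem_filter] at hb
  exact ⟨b, hb.2, fun i hi => hmin i (Finset.mem_filter.2 ⟨hout i hi, hi⟩)⟩

omit [Algebra K ℂ] in
theorem mper_of_zero (M : Motive K V) (h : ¬ ∃ i, M.pr i ≠ 0) (w : V) (s : Dual K V) :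
    M.mper w s = 0 := by
  push Not at h
  funext p
  show s (M.pr (-p.1) (M.word p.2 w)) = 0
  rw [h, LinearMap.zero_apply, map_zero]

/-- **width three**: `per` is injective on the motivic periods of `M` -/
theorem width_three (a : List Letter → ℂ) (h0 : a [] = 1) (h1 : ∀ n : Letter, a [n] = zeta n)
    (r : ℕ) : RankInjective ℚ a 3 r := by
  intro V _ _ _ M hM _ w s hws
  by_cases hne : ∃ i, M.pr i ≠ 0
  swap
  · exact mper_of_zero M hne w s
  obtain ⟨b, hb0, hb⟩ := exists_min (K := ℚ) M hne
  have hb' : ∀ i, M.pr i ≠ 0 → b ≤ i ∧ i ≤ b + 4 := by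
    intro i hi
    have := hM b i hb0 hi
    push_cast at this
    exact ⟨hb i hi, by omega⟩
  obtain ⟨e1, e3, f3, hrel⟩ := width_four a h0 h1 M b hb' w s hws
  have h4 : M.pr (b + 4) = 0 := by
    by_contra h4
    have := hM b _ hb0 h4
    push_cast at this
    omega
  rw [h4, LinearMap.zero_apply, LinearMap.zero_apply, map_zero] at hrel
  obtain ⟨_, e2, e0⟩ := indep_pi 0 (-4 * s (M.pr (b + 2) w)) (16 * s (M.pr b w)) (by
    rw [← hrel]
    push_cast
    ring)
  exact mper_zero M b hb' w s (by linarith) e1 (by linarith) e3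
    (by rw [h4, LinearMap.zero_apply, map_zero]) f3 (by rw [h4, LinearMap.zero_apply, map_zero])

/-- **rank three, width four** -/
theorem rank_three (a : List Letter → ℂ) (h0 : a [] = 1) (h1 : ∀ n : Letter, a [n] = zeta n) :
    RankInjective ℚ a 4 3 := by
  intro V _ _ _ M hM hrk w s hws
  by_cases hne : ∃ i, M.pr i ≠ 0
  swap
  · exact mper_of_zero M hne w s
  obtain ⟨b, hb0, hb⟩ := exists_min (K := ℚ) M hne
  have hb' : ∀ i, M.pr i ≠ 0 → b ≤ i ∧ i ≤ b + 4 := by
    intro i hi
    have := hM b i hb0 hi
    push_cast at this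
    exact ⟨hb i hi, by omega⟩
  obtain ⟨e1, e3, f3, hrel⟩ := width_four a h0 h1 M b hb' w s hws
  by_cases e2 : s (M.pr (b + 2) w) = 0
  · rw [e2] at hrel
    obtain ⟨e4, e0, f4⟩ := indep_four (s (M.pr (b + 4) w)) (16 * s (M.pr b w))
      (s (M.pr (b + 4) (M.σ n3 w))) (by
        rw [← hrel]
        push_cast
        ring)
    exact mper_zero M b hb' w s (by linarith) e1 e2 e3 e4 f3 f4
  · have f4 : s (M.pr (b + 4) (M.σ n3 w)) = 0 := by
      by_contra f4
      have g4 : M.pr (b + 4) ≠ 0 := by
        intro h
        apply f4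
        rw [h, LinearMap.zero_apply, map_zero]
      have g2 : M.pr (b + 2) ≠ 0 := by
        intro h
        apply e2
        rw [h, LinearMap.zero_apply, map_zero]
      have g1 : M.pr (b + 1) ≠ 0 := by
        intro h
        apply f4
        have h2 : M.pr (b + 4) (M.σ n3 w) = M.σ n3 (M.pr (b + 1) w) := by
          rw [M.raise]
          show M.pr (b + 4) (M.σ n3 w) = M.pr (b + 1 + ((3 : ℕ) : ℤ)) (M.σ n3 w)
          congr 2
          push_cast
          ring
        rw [h2, h, LinearMap.zero_apply, map_zero, map_zero]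
      have := card_le_finrank M {b, b + 1, b + 2, b + 4} (by
        intro k hk
        simp only [Finset.mem_insert, Finset.mem_singleton] at hk
        rcases hk with rfl | rfl | rfl | rfl <;> assumption)
      have hc : ({b, b + 1, b + 2, b + 4} : Finset ℤ).card = 4 := by
        rw [Finset.card_insert_of_notMem, Finset.card_insert_of_notMem,
          Finset.card_insert_of_notMem, Finset.card_singleton]
        · simp
        · simp
        · simp
      omega
    rw [f4] at hrel
    obtain ⟨e4, e2', e0⟩ := indep_pi (s (M.pr (b + 4) w)) (-4 * s (M.pr (b + 2) w))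
      (16 * s (M.pr b w)) (by
        rw [← hrel]
        push_cast
        ring)
    exact mper_zero M b hb' w s (by linarith) e1 (by linarith) e3 e4 f3 f4

theorem result (a : List Letter → ℂ) (h0 : a [] = 1) (h1 : ∀ n : Letter, a [n] = zeta n) :
    -- (1) zero blocks of defect `j` and motives of rank `j + 2`
    (∀ (K : Type) [Field K] [Algebra K ℂ] (N j : ℕ),
      BlockInjective K a N j ↔ RankInjective K a N (j + 2)) ∧
    -- (2) the conjecture is the conjunction of these statements
    (∀ (K : Type) [Field K] [Algebra K ℂ],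
      PerInjective K a ↔ ∀ N j : ℕ, BlockInjective K a N j) ∧
    -- (3) defect zero
    (∀ (K : Type) [Field K] [Algebra K ℂ] (N : ℕ), BlockInjective K a N 0 ↔ Independent K N) ∧
    (∀ N : ℕ, BlockInjective ℚ a N 0 ↔ ∀ n : Letter, (n : ℕ) ≤ N → Irrational (zeta n)) ∧
    (∀ N : ℕ, BlockInjective (algebraicClosure ℚ ℝ) a N 0 ↔
      ∀ n : Letter, (n : ℕ) ≤ N → Transcendental ℚ (zeta n)) ∧
    -- (4) unconditional cases
    (∀ j : ℕ, BlockInjective ℚ a 3 j) ∧ BlockInjective ℚ a 4 1 := by
  have hmain : ∀ (K : Type) [Field K] [Algebra K ℂ] (N j : ℕ),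
      BlockInjective K a N j ↔ RankInjective K a N (j + 2) := by
    intro K _ _ N j
    exact ⟨rank_of_blocks a, blocks a h0⟩
  have hnum : ∀ (K : Type) [Field K] [Algebra K ℂ] (N : ℕ),
      BlockInjective K a N 0 ↔ Independent K N := by
    intro K _ _ N
    rw [hmain K N 0]
    exact ⟨independent_of_rank_two a h0 h1, rank_two a h0 h1⟩
  refine ⟨hmain, fun K _ _ => perInjective_iff a, hnum, fun N => ?_, fun N => ?_,
    fun j => (hmain ℚ 3 j).2 (width_three a h0 h1 _), (hmain ℚ 4 1).2 (rank_three a h0 h1)⟩
  · rw [hnum ℚ N, independent_iff (K := ℚ)]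
    · refine forall₂_congr fun n _ => ⟨fun h => ?_, fun h x hx => h ⟨x, ?_⟩⟩
      · rintro ⟨x, hx⟩
        refine h x ?_
        rw [← hx]
        simp
      · have h2 : ((x : ℝ) : ℂ) = zeta n := by
          rw [← hx]
          simp
        exact_mod_cast h2
    · intro x
      simp
    · intro x
      exact isAlgebraic_algebraMap x
  · have hmap : ∀ x : algebraicClosure ℚ ℝ,
        algebraMap (algebraicClosure ℚ ℝ) ℂ x = ((x : ℝ) : ℂ) := fun x => rfl
    rw [hnum _ N, independent_iff (K := algebraicClosure ℚ ℝ)]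
    · refine forall₂_congr fun n _ => ⟨fun h hn => ?_, fun h x hx => h ?_⟩
      · exact h ⟨zeta n, mem_algebraicClosure_iff.2 hn⟩ (hmap _)
      · rw [hmap, Complex.ofReal_inj] at hx
        rw [← hx]
        exact mem_algebraicClosure_iff.1 x.2
    · intro x
      rw [hmap, Complex.ofReal_im]
    · intro x
      exact (mem_algebraicClosure_iff.1 x.2).algebraMap (A := ℂ)

end Pool.Agent.Results.MP_e54452_nt.ZeroBlocks
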